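import Pool.Agent.H64.BE.FB4
import Pool.Agent.H39.BE.AllS
import Pool.Agent.H57.CF.ENF
import Pool.Agent.H64.PC.Fin

/-!
# BEAU: the theorem for one map, universal constants
-/

set_option autoImplicit false

open Filter Topology Polynomial Metric Set MeasureTheory

namespace Pool.Agent.H64.BE

open Pool.Agent.H44.Fatou (rat rat_continuous rat_coe rat_coe_of_ne pt crit_coe)
open Pool.Agent.H32.BT Pool.Agent.H79.Eul Pool.Agent.H79.Par
open Pool.Agent.H35.EX Pool.Agent.H44.RR Pool.Agent.H56.HR Pool.Agent.H44.RC Pool.Agent.H47.RJ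
open Pool.Agent.H47.NM Pool.Agent.H47.NN Pool.Agent.H44.ND Pool.Agent.H79.ES Pool.Agent.H44.RG
open Pool.Agent.H44.CP Pool.Agent.H57.CF Pool.Agent.H47.PS Pool.Agent.H64.NC
open Pool.Agent.H61.TT Pool.Agent.H57.CP Pool.Agent.H3.NC Pool.Agent.H18.UP
open Pool.Agent.H39.BE (KV Rng)
open Pool.Agent.H83.BE (UPd)

variable {d : ℕ}

/-- Julia set = sphere -/
theorem chb_s (hd : 2 ≤ d) {v : E d} (hcop : IsCoprime (pol v.1) (pol v.2))
    (hdeg : max (pol v.1).natDegree (pol v.2).natDegree = d) (hup : ¬ Up v) (hJ : JS (Rf v) = univ) :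
    ∀ x0 ∈ PS (Rf v), CHB d v x0 := by
  intro x0 hx0
  obtain ⟨c, hc, -⟩ := ps_crit hx0
  obtain ⟨L, G, φ, K, hch, hm, hinf, e0, e1, ei, hup1, hJ1⟩ := ch_s_m hd hcop hdeg hup hJ x0
  obtain ⟨hcop1, hdeg1, hφ⟩ := hch.conj v hcop hdeg
  have hc1 : IsCrit (Rf (L v)) (φ c) := (isCrit_conj φ hφ c).2 hc
  obtain ⟨hG, hK⟩ := Pool.Agent.H39.BE.allv_s hd hcop1 hdeg1 hup1 hJ1 e0 e1 ei hc1
  refine ⟨L v, φ, K, univ, 1, ⟨hch.K1, hch.bil, hφ, hG, fun z => ?_, fun c hc _ => ?_, Or.inl ei⟩, hm,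
    rng_s hd hcop1 hdeg1 hJ1 ei, hinf, fun c0 _ h0 => ?_⟩
  · rw [hJ1]
    simp
  · exact Pool.Agent.H66.UP.crit_pl hd hcop1 hdeg1 hup1 hJ1 ei hc
  · obtain ⟨δ1, R, C, r, K', Y, N, hh, X, h⟩ := hK c0 h0
    exact ⟨univ, δ1, R, C, _, r, K', Y, N, hh, X, h⟩

theorem beau (hd : 2 ≤ d) : ∃ κ : ℝ, 0 < κ ∧ κ < 1 ∧
    (∀ v : E d, IsCoprime (pol v.1) (pol v.2) → max (pol v.1).natDegree (pol v.2).natDegree = d → ¬ Up v →
      UPd κ (PS (Rf v))) ∧
    ∀ k : ℕ, k ≤ d → ∀ x : Em d k, IsCoprime (pol x.1) (pol x.2) → max (pol x.1).natDegree (pol x.2).natDegree = d →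
      ¬ UpF d k x → UPd κ (PS (Rf (ex d k x))) := by
  obtain ⟨κ, h0, h1, h⟩ := beau_map d
  have key : ∀ v : E d, IsCoprime (pol v.1) (pol v.2) → max (pol v.1).natDegree (pol v.2).natDegree = d → ¬ Up v →
      UPd κ (PS (Rf v)) := by
    intro v hcop hdeg hup
    refine h ((Pool.Agent.H64.PC.conc_or (v := v) hd hcop hdeg).resolve_right hup) ?_
    by_cases hJ : JS (Rf v) = univ
    · exact chb_s hd hcop hdeg hup hJ
    · exact chb_up hd hcop hdeg hup hJ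
  refine ⟨κ, h0, h1, key, fun k hkd x hcop hdeg hup => ?_⟩
  have hcop' := ex_cop hcop
  have hdeg' := ex_deg hdeg
  rcases Nat.lt_or_ge k 2 with h2 | h2
  · rcases Nat.lt_or_ge k 1 with h3 | h3
    · obtain rfl : k = 0 := by omega
      exact key _ hcop' hdeg' fun h4 => hup (Pool.Agent.H64.NC.up_zero h4)
    · obtain rfl : k = 1 := by omega
      exact key _ hcop' hdeg' fun h4 => hup (Pool.Agent.H64.PF.up_one hd hcop hdeg h4)
  · exact h ((Pool.Agent.H57.CF.concF_all hd h2 hkd hcop hdeg).resolve_right hup) (chb_upF hd h2 hkd hcop hdeg hup)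

end Pool.Agent.H64.BE
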