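import Pool.Agent.H44.RR.CHC
import Pool.Agent.H44.RG.BLP
import Pool.Agent.H32.BT.Mob

/-!
# BEAU: Moebius maps are conformal for the chordal distance

`MobC φ`: `chord (φ x) (φ y) = lam x * lam y * chord x y` with a positive function `lam`. `1 / (z - s)`, compositions, inverses, translations.
`mobc_loc`: at small scales a Moebius map changes ratios of chordal distances by a factor at most 2. `chord_loc`: the same for the chordal distance and the distance of the plane.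
-/

set_option autoImplicit false

open Filter Topology Metric Set

namespace Pool.Agent.H64.BE

open Pool.Agent.H35.EX Pool.Agent.H44.RR

/-- the homeomorphism is conformal for the chordal distance, in a global form -/
def MobC (φ : OnePoint ℂ ≃ₜ OnePoint ℂ) : Prop := ∃ lam : OnePoint ℂ → ℝ, (∀ x, 0 < lam x) ∧
  ∀ x y, chord (φ x) (φ y) = lam x * lam y * chord x y

theorem mobc_comp {φ1 φ2 : OnePoint ℂ ≃ₜ OnePoint ℂ} (h1 : MobC φ1) (h2 : MobC φ2) : MobC (φ1.trans φ2) := by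
  obtain ⟨l1, p1, e1⟩ := h1
  obtain ⟨l2, p2, e2⟩ := h2
  refine ⟨fun x => l1 x * l2 (φ1 x), fun x => mul_pos (p1 x) (p2 _), fun x y => ?_⟩
  show chord (φ2 (φ1 x)) (φ2 (φ1 y)) = _
  rw [e2, e1]
  ring

theorem mobc_symm {φ : OnePoint ℂ ≃ₜ OnePoint ℂ} (h : MobC φ) : MobC φ.symm := by
  obtain ⟨l, p, e⟩ := h
  refine ⟨fun x => (l (φ.symm x))⁻¹, fun x => inv_pos.2 (p _), fun x y => ?_⟩
  have h1 := e (φ.symm x) (φ.symm y)
  rw [Homeomorph.apply_symm_apply, Homeomorph.apply_symm_apply] at h1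
  have hx := (p (φ.symm x)).ne'
  have hy := (p (φ.symm y)).ne'
  rw [h1]
  field_simp

private theorem sq_inv (u : ℂ) (hu : u ≠ 0) : √(1 + ‖u⁻¹‖ ^ 2) = √(1 + ‖u‖ ^ 2) / ‖u‖ := by
  have h0 : 0 < ‖u‖ := norm_pos_iff.2 hu
  rw [eq_div_iff h0.ne']
  have h1 : √(1 + ‖u⁻¹‖ ^ 2) * ‖u‖ = √(1 + ‖u⁻¹‖ ^ 2) * √(‖u‖ ^ 2) := by
    rw [Real.sqrt_sq h0.le]
  rw [h1, ← Real.sqrt_mul (by positivity)]
  congr 1
  rw [norm_inv]
  field_simp
  ring

private theorem sq_pos (u : ℂ) : 0 < √(1 + ‖u‖ ^ 2) := by positivity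

theorem mobc_mob {s : ℂ} {φ : OnePoint ℂ ≃ₜ OnePoint ℂ}
    (hφ : ∀ z : ℂ, z ≠ s → φ (z : OnePoint ℂ) = (((z - s)⁻¹ : ℂ) : OnePoint ℂ))
    (hs : φ (s : OnePoint ℂ) = OnePoint.infty) (hi : φ OnePoint.infty = ((0 : ℂ) : OnePoint ℂ)) : MobC φ := by
  obtain ⟨l, hl⟩ : ∃ l : OnePoint ℂ → ℝ, (l OnePoint.infty = 1) ∧
      ∀ z : ℂ, l (z : OnePoint ℂ) = √(1 + ‖z‖ ^ 2) / √(1 + ‖z - s‖ ^ 2) :=
    ⟨fun x => match x with
      | OnePoint.infty => 1
      | OnePoint.some z => √(1 + ‖z‖ ^ 2) / √(1 + ‖z - s‖ ^ 2), rfl, fun _ => rfl⟩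
  obtain ⟨li, lz⟩ := hl
  have hci : ∀ z : ℂ, chord OnePoint.infty (z : OnePoint ℂ) = 1 / √(1 + ‖z‖ ^ 2) := fun _ => rfl
  have hcz : ∀ z w : ℂ, chord (z : OnePoint ℂ) (w : OnePoint ℂ) = ‖z - w‖ / (√(1 + ‖z‖ ^ 2) * √(1 + ‖w‖ ^ 2)) :=
    fun _ _ => rfl
  have hcii : chord OnePoint.infty OnePoint.infty = 0 := rfl
  -- infinity and a finite point
  have hiz : ∀ w : ℂ, chord (φ OnePoint.infty) (φ (w : OnePoint ℂ)) =
      l OnePoint.infty * l (w : OnePoint ℂ) * chord OnePoint.infty (w : OnePoint ℂ) := by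
    intro w
    have hw := sq_pos w
    by_cases h : w = s
    · subst h
      rw [hi, hs, li, lz, hci, chord_comm, hci, sub_self, norm_zero]
      simp only [ne_eq, OfNat.ofNat_ne_zero, not_false_eq_true, zero_pow, add_zero, Real.sqrt_one, div_one, one_mul]
      field_simp
    · have h1 := sub_ne_zero.2 h
      have h2 : 0 < ‖w - s‖ := norm_pos_iff.2 h1
      have h3 := sq_pos (w - s)
      rw [hi, hφ w h, li, lz, hci, hcz, zero_sub, norm_neg, sq_inv _ h1, norm_inv, norm_zero]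
      simp only [ne_eq, OfNat.ofNat_ne_zero, not_false_eq_true, zero_pow, add_zero, Real.sqrt_one, one_mul]
      field_simp
  refine ⟨l, ?_, ?_⟩
  · intro x
    induction x using OnePoint.rec with
    | infty => rw [li]; exact one_pos
    | coe z => rw [lz]; exact div_pos (sq_pos _) (sq_pos _)
  · intro x y
    induction x using OnePoint.rec with
    | infty =>
      induction y using OnePoint.rec with
      | infty => rw [chord_zero, hcii, mul_zero]
      | coe w => exact hiz w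
    | coe z =>
      induction y using OnePoint.rec with
      | infty =>
        rw [chord_comm, hiz z, chord_comm (z : OnePoint ℂ)]
        ring
      | coe w =>
        have hz := sq_pos z
        have hw := sq_pos w
        by_cases h : z = s
        · by_cases h' : w = s
          · rw [h, h', chord_zero, chord_zero, mul_zero]
          · have h1 := sub_ne_zero.2 h'
            have h2 : 0 < ‖w - s‖ := norm_pos_iff.2 h1
            have h3 := sq_pos (w - s)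
            subst h
            rw [hs, hφ w h', lz, lz, hci, hcz, sq_inv _ h1, sub_self, norm_zero, norm_sub_rev z w]
            simp only [ne_eq, OfNat.ofNat_ne_zero, not_false_eq_true, zero_pow, add_zero, Real.sqrt_one, div_one]
            field_simp
        · have h1 := sub_ne_zero.2 h
          have h2 : 0 < ‖z - s‖ := norm_pos_iff.2 h1
          have h3 := sq_pos (z - s)
          by_cases h' : w = s
          · subst h'
            rw [hs, hφ z h, lz, lz, chord_comm, hci, hcz, sq_inv _ h1, sub_self, norm_zero]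
            simp only [ne_eq, OfNat.ofNat_ne_zero, not_false_eq_true, zero_pow, add_zero, Real.sqrt_one, div_one]
            field_simp
          · have h1' := sub_ne_zero.2 h'
            have h2' : 0 < ‖w - s‖ := norm_pos_iff.2 h1'
            have h3' := sq_pos (w - s)
            have h4 : ‖(z - s)⁻¹ - (w - s)⁻¹‖ = ‖z - w‖ / (‖z - s‖ * ‖w - s‖) := by
              have e : (z - s)⁻¹ - (w - s)⁻¹ = -((z - w) / ((z - s) * (w - s))) := by
                field_simp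
                ring
              rw [e, norm_neg, norm_div, norm_mul]
            rw [hφ z h, hφ w h', lz, lz, hcz, hcz, sq_inv _ h1, sq_inv _ h1', h4]
            field_simp

/-- translations -/
theorem mobc_tr (s : ℂ) : ∃ φ : OnePoint ℂ ≃ₜ OnePoint ℂ, (∀ z : ℂ, φ (z : OnePoint ℂ) = ((z - s : ℂ) : OnePoint ℂ)) ∧
    φ OnePoint.infty = OnePoint.infty ∧ MobC φ ∧
    ∃ K : ℝ, ∀ x y, chord (φ x) (φ y) ≤ K * chord x y ∧ chord x y ≤ K * chord (φ x) (φ y) := by
  obtain ⟨φs, s1, s2, s3, -⟩ := Pool.Agent.H32.BT.exists_mob s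
  obtain ⟨φ0, o1, o2, o3, -⟩ := Pool.Agent.H32.BT.exists_mob 0
  obtain ⟨Ks, hKs, hs⟩ := Pool.Agent.H44.RG.chord_bilip s2 s1 s3
  obtain ⟨K0, hK0, ho⟩ := Pool.Agent.H44.RG.chord_bilip o2 o1 o3
  refine ⟨φs.trans φ0.symm, fun z => ?_, ?_, mobc_comp (mobc_mob s1 s2 s3) (mobc_symm (mobc_mob o1 o2 o3)),
    Ks * K0, fun x y => ?_⟩
  · show φ0.symm (φs z) = _
    rw [Homeomorph.symm_apply_eq]
    by_cases hz : z = s
    · subst hz
      rw [s2, sub_self, o2]
    · rw [s1 z hz, o1 _ (sub_ne_zero.2 hz), sub_zero]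
  · show φ0.symm (φs OnePoint.infty) = _
    rw [Homeomorph.symm_apply_eq, s3, o3]
  · show chord (φ0.symm (φs x)) (φ0.symm (φs y)) ≤ _ ∧ _ ≤ _ * chord (φ0.symm (φs x)) (φ0.symm (φs y))
    have h1 := hs x y
    have h2 := ho (φ0.symm (φs x)) (φ0.symm (φs y))
    rw [Homeomorph.apply_symm_apply, Homeomorph.apply_symm_apply] at h2
    have hs0 : 0 ≤ Ks := by linarith
    have ho0 : 0 ≤ K0 := by linarith
    constructor
    · calc _ ≤ K0 * chord (φs x) (φs y) := h2.2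
        _ ≤ K0 * (Ks * chord x y) := mul_le_mul_of_nonneg_left h1.1 ho0
        _ = Ks * K0 * chord x y := by ring
    · calc chord x y ≤ Ks * chord (φs x) (φs y) := h1.2
        _ ≤ Ks * (K0 * chord (φ0.symm (φs x)) (φ0.symm (φs y))) := mul_le_mul_of_nonneg_left h2.1 hs0
        _ = Ks * K0 * chord (φ0.symm (φs x)) (φ0.symm (φs y)) := by ring

/-- the factor is continuous -/
theorem lam_cont {φ : OnePoint ℂ ≃ₜ OnePoint ℂ} {lam : OnePoint ℂ → ℝ} (hp : ∀ x, 0 < lam x)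
    (he : ∀ x y, chord (φ x) (φ y) = lam x * lam y * chord x y) : Continuous lam := by
  have hcl : ∀ a : OnePoint ℂ, Continuous fun x => chord x a := fun a =>
    chord_cont.comp (continuous_id.prodMk continuous_const)
  rw [continuous_iff_continuousAt]
  intro x0
  obtain ⟨y, z, hyz, hyx, hzx⟩ : ∃ y z : OnePoint ℂ, y ≠ z ∧ y ≠ x0 ∧ z ≠ x0 := by
    have hinf : (({x0} : Set (OnePoint ℂ))ᶜ).Infinite := (finite_singleton x0).infinite_compl
    obtain ⟨p1, hp1⟩ := hinf.nonempty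
    obtain ⟨p2, hp2⟩ := (hinf.sdiff (finite_singleton p1)).nonempty
    exact ⟨p1, p2, fun h => hp2.2 h.symm, hp1, hp2.1⟩
  have hev : ∀ᶠ x in 𝓝 x0, x ≠ y ∧ x ≠ z := by
    have h1 : ∀ᶠ x in 𝓝 x0, x ≠ y := isOpen_ne.mem_nhds hyx.symm
    have h2 : ∀ᶠ x in 𝓝 x0, x ≠ z := isOpen_ne.mem_nhds hzx.symm
    exact h1.and h2
  have hform : ∀ᶠ x in 𝓝 x0, lam x = √((chord (φ x) (φ y) * chord (φ x) (φ z) / (chord x y * chord x z)) *
      (chord y z / chord (φ y) (φ z))) := by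
    filter_upwards [hev] with x hx
    have c1 := chord_pos hx.1
    have c2 := chord_pos hx.2
    have c3 := chord_pos hyz
    have h1 : (chord (φ x) (φ y) * chord (φ x) (φ z) / (chord x y * chord x z)) *
      (chord y z / chord (φ y) (φ z)) = lam x ^ 2 := by
      rw [he, he, he]
      have p1 := hp x
      have p2 := hp y
      have p3 := hp z
      field_simp
    rw [h1, Real.sqrt_sq (hp x).le]
  refine ContinuousAt.congr ?_ (EventuallyEq.symm hform)
  have c1 := chord_pos hyx.symm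
  have c2 := chord_pos hzx.symm
  refine ContinuousAt.sqrt (ContinuousAt.mul (ContinuousAt.div ?_ ?_ (mul_pos c1 c2).ne') continuousAt_const)
  · exact (((hcl (φ y)).comp φ.continuous).mul ((hcl (φ z)).comp φ.continuous)).continuousAt
  · exact ((hcl y).mul (hcl z)).continuousAt

theorem mobc_loc {φ : OnePoint ℂ ≃ₜ OnePoint ℂ} (h : MobC φ) : ∃ r1 : ℝ, 0 < r1 ∧ ∀ x y z, chord y z < r1 →
    chord (φ x) (φ y) * chord x z ≤ 2 * (chord x y * chord (φ x) (φ z)) := by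
  obtain ⟨l, hp, he⟩ := h
  have hc := lam_cont hp he
  have hcl : IsClosed {p : OnePoint ℂ × OnePoint ℂ | 2 * l p.2 ≤ l p.1} :=
    isClosed_le (continuous_const.mul (hc.comp continuous_snd)) (hc.comp continuous_fst)
  have key : ∃ r1 : ℝ, 0 < r1 ∧ ∀ y z, chord y z < r1 → l y ≤ 2 * l z := by
    rcases Set.eq_empty_or_nonempty {p : OnePoint ℂ × OnePoint ℂ | 2 * l p.2 ≤ l p.1} with h1 | h1
    · refine ⟨1, one_pos, fun y z _ => ?_⟩
      by_contra hcon
      push Not at hcon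
      have : (y, z) ∈ {p : OnePoint ℂ × OnePoint ℂ | 2 * l p.2 ≤ l p.1} := hcon.le
      rw [h1] at this
      exact this
    · obtain ⟨p0, hp0, hmin⟩ := hcl.isCompact.exists_isMinOn h1 chord_cont.continuousOn
      refine ⟨chord p0.1 p0.2, chord_pos ?_, fun y z hyz => ?_⟩
      · intro h2
        have h3 : 2 * l p0.2 ≤ l p0.1 := hp0
        rw [h2] at h3
        linarith [hp p0.2]
      · by_contra hcon
        push Not at hcon
        have h3 : chord p0.1 p0.2 ≤ chord y z := hmin (show (y, z) ∈ {p : OnePoint ℂ × OnePoint ℂ | 2 * l p.2 ≤ l p.1} from hcon.le)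
        linarith
  obtain ⟨r1, hr1, hk⟩ := key
  refine ⟨r1, hr1, fun x y z hyz => ?_⟩
  rw [he, he]
  have h1 := hk y z hyz
  have h2 : 0 ≤ l x * chord x y * chord x z := mul_nonneg (mul_nonneg (hp x).le (chord_nn _ _)) (chord_nn _ _)
  calc l x * l y * chord x y * chord x z = l y * (l x * chord x y * chord x z) := by ring
    _ ≤ (2 * l z) * (l x * chord x y * chord x z) := mul_le_mul_of_nonneg_right h1 h2
    _ = 2 * (chord x y * (l x * l z * chord x z)) := by ring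

/-- the chordal distance and the distance of the plane -/
theorem chord_loc {x y z : ℂ} (h : ‖y - z‖ ≤ 1 / 2) :
    ‖x - y‖ * chord (x : OnePoint ℂ) (z : OnePoint ℂ) ≤ 2 * (chord (x : OnePoint ℂ) (y : OnePoint ℂ) * ‖x - z‖) ∧
      chord (x : OnePoint ℂ) (y : OnePoint ℂ) * ‖x - z‖ ≤ 2 * (‖x - y‖ * chord (x : OnePoint ℂ) (z : OnePoint ℂ)) := by
  have hcz : ∀ z w : ℂ, chord (z : OnePoint ℂ) (w : OnePoint ℂ) = ‖z - w‖ / (√(1 + ‖z‖ ^ 2) * √(1 + ‖w‖ ^ 2)) :=
    fun _ _ => rfl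
  have key : ∀ u w : ℂ, ‖u - w‖ ≤ 1 / 2 → √(1 + ‖u‖ ^ 2) ≤ 2 * √(1 + ‖w‖ ^ 2) := by
    intro u w huw
    have h1 : ‖u‖ ≤ ‖w‖ + 1 / 2 := by
      have h2 : u = (u - w) + w := by ring
      have h3 := norm_add_le (u - w) w
      rw [← h2] at h3
      linarith
    have h2 : 2 * √(1 + ‖w‖ ^ 2) = √(4 * (1 + ‖w‖ ^ 2)) := by
      rw [Real.sqrt_mul (by norm_num), show (4 : ℝ) = 2 ^ 2 by norm_num, Real.sqrt_sq (by norm_num)]
    rw [h2]
    refine Real.sqrt_le_sqrt ?_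
    nlinarith [norm_nonneg u, norm_nonneg w, sq_nonneg (‖w‖ - 1 / 2)]
  have k1 := key y z h
  have k2 := key z y (by rw [norm_sub_rev]; exact h)
  have hx := sq_pos x
  have hy := sq_pos y
  have hz := sq_pos z
  have hA : 0 ≤ ‖x - y‖ * ‖x - z‖ / √(1 + ‖x‖ ^ 2) := by positivity
  have i1 : 1 / √(1 + ‖z‖ ^ 2) ≤ 2 * (1 / √(1 + ‖y‖ ^ 2)) := by
    rw [mul_one_div, div_le_div_iff₀ hz hy]
    linarith
  have i2 : 1 / √(1 + ‖y‖ ^ 2) ≤ 2 * (1 / √(1 + ‖z‖ ^ 2)) := by
    rw [mul_one_div, div_le_div_iff₀ hy hz]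
    linarith
  rw [hcz, hcz]
  constructor
  · calc ‖x - y‖ * (‖x - z‖ / (√(1 + ‖x‖ ^ 2) * √(1 + ‖z‖ ^ 2))) =
          (‖x - y‖ * ‖x - z‖ / √(1 + ‖x‖ ^ 2)) * (1 / √(1 + ‖z‖ ^ 2)) := by field_simp
      _ ≤ (‖x - y‖ * ‖x - z‖ / √(1 + ‖x‖ ^ 2)) * (2 * (1 / √(1 + ‖y‖ ^ 2))) := mul_le_mul_of_nonneg_left i1 hA
      _ = _ := by field_simp
  · calc ‖x - y‖ / (√(1 + ‖x‖ ^ 2) * √(1 + ‖y‖ ^ 2)) * ‖x - z‖ =
          (‖x - y‖ * ‖x - z‖ / √(1 + ‖x‖ ^ 2)) * (1 / √(1 + ‖y‖ ^ 2)) := by field_simp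
      _ ≤ (‖x - y‖ * ‖x - z‖ / √(1 + ‖x‖ ^ 2)) * (2 * (1 / √(1 + ‖z‖ ^ 2))) := mul_le_mul_of_nonneg_left i2 hA
      _ = _ := by field_simp

end Pool.Agent.H64.BE
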