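import Pool.Agent.H18.UP.FIN
import Pool.Agent.H64.BE.MBC

/-!
# BEAU, the final part: uniform ratios through a conformal chart

`UPu κ P`: `P` is uniformly perfect with the ratio `κ` at small scales. `NDk`: rings of the ratio `κ` accumulate at `x0`. `nupu`: as `nup` (H18/UP/FNB). `mob_sim`: near a point whose image is in the plane the chart is a similarity up to the factor 4. `nup_plu`: rings in the plane.
-/

set_option autoImplicit false

open Filter Topology Polynomial Metric Set MeasureTheory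

namespace Pool.Agent.H64.BE

open Pool.Agent.H44.Fatou (rat rat_continuous rat_coe rat_coe_of_ne pt crit_coe)
open Pool.Agent.H32.BT Pool.Agent.H79.Eul Pool.Agent.H79.Par
open Pool.Agent.H35.EX Pool.Agent.H44.RR Pool.Agent.H56.HR Pool.Agent.H44.RC Pool.Agent.H47.RJ
open Pool.Agent.H47.NM Pool.Agent.H47.NN Pool.Agent.H44.ND Pool.Agent.H79.ES Pool.Agent.H44.RG
open Pool.Agent.H44.CP Pool.Agent.H57.CF Pool.Agent.H47.PS Pool.Agent.H64.NC
open Pool.Agent.H61.TT Pool.Agent.H57.CP Pool.Agent.H3.NC Pool.Agent.H18.UP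

variable {d : ℕ}

/-- uniformly perfect with the ratio `κ` at small scales -/
def UPu (κ : ℝ) (P : Set (OnePoint ℂ)) : Prop := ∃ r0 : ℝ, 0 < r0 ∧ ∀ x ∈ P, ∀ r : ℝ, 0 < r → r < r0 →
  ∃ y ∈ P, κ * r ≤ chord x y ∧ chord x y < r

/-- rings of the ratio `κ` accumulate at `x0` -/
def NDk (κ : ℝ) (P : Set (OnePoint ℂ)) (x0 : OnePoint ℂ) : Prop := ∀ ε : ℝ, 0 < ε → ∃ x ∈ P, ∃ r : ℝ, chord x x0 < ε ∧
  0 < r ∧ r < ε ∧ ∀ y ∈ P, κ * r ≤ chord x y → r ≤ chord x y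

theorem nupu {P : Set (OnePoint ℂ)} (hP : IsClosed P) {κ : ℝ} (h : ¬ UPu κ P) : ∃ x0 ∈ P, NDk κ P x0 := by
  have h1 : ∀ n : ℕ, ∃ x ∈ P, ∃ r : ℝ, 0 < r ∧ r < 1 / ((n : ℝ) + 1) ∧
      ∀ y ∈ P, κ * r ≤ chord x y → r ≤ chord x y := by
    intro n
    by_contra hc
    apply h
    refine ⟨1 / ((n : ℝ) + 1), by positivity, fun x hx r hr hrκ => ?_⟩
    by_contra hc2
    apply hc
    refine ⟨x, hx, r, hr, hrκ, fun y hy h2 => ?_⟩
    by_contra h3
    exact hc2 ⟨y, hy, h2, not_le.1 h3⟩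
  choose x hxP r hr hrn hxy using h1
  obtain ⟨x0, hx0, hcl⟩ := hP.isCompact.exists_mapClusterPt (f := atTop) (u := x)
    (Filter.le_principal_iff.2 (Filter.mem_map.2 (Filter.Eventually.of_forall hxP)))
  refine ⟨x0, hx0, fun ε hε => ?_⟩
  have h0 : chord x0 x0 = 0 := by
    induction x0 using OnePoint.rec with
    | infty => rfl
    | coe z =>
      show ‖z - z‖ / _ = 0
      rw [sub_self, norm_zero, zero_div]
  have h2 : ∀ᶠ y in 𝓝 x0, chord x0 y < ε := by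
    refine (Pool.Agent.H44.RC.ch_ball x0 ε).mem_nhds ?_
    show chord x0 x0 < ε
    rw [h0]
    exact hε
  have h3 := hcl.frequently h2
  have h4 : ∀ᶠ n : ℕ in atTop, 1 / ((n : ℝ) + 1) ≤ ε :=
    (tendsto_one_div_add_atTop_nhds_zero_nat (𝕜 := ℝ)).eventually_le_const hε
  obtain ⟨n, h5, h6⟩ := (h3.and_eventually h4).exists
  refine ⟨x n, hxP n, r n, ?_, hr n, (hrn n).trans_le h6, fun y hy h7 => hxy n y hy h7⟩
  rw [Pool.Agent.H44.RC.ch_comm]
  exact h5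

/-- near a point whose image is in the plane the chart is a similarity up to the factor 4 -/
theorem mob_sim {φ : OnePoint ℂ ≃ₜ OnePoint ℂ} (h : MobC φ) {K : ℝ} (hK1 : 1 ≤ K)
    (hK : ∀ x y, chord (φ x) (φ y) ≤ K * chord x y ∧ chord x y ≤ K * chord (φ x) (φ y)) (y0 : ℂ) :
    ∃ η Q : ℝ, 0 < η ∧ 0 < Q ∧ ∀ (z : ℂ) (x : OnePoint ℂ), ‖z - y0‖ < η → φ x = (z : OnePoint ℂ) →
      ∃ q : ℝ, 0 < q ∧ q ≤ Q ∧ ∀ (w : ℂ) (y : OnePoint ℂ), ‖w - z‖ < η → φ y = (w : OnePoint ℂ) →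
        q * chord x y ≤ 4 * ‖z - w‖ ∧ ‖z - w‖ ≤ 4 * q * chord x y := by
  obtain ⟨r1, hr1, hloc⟩ := mobc_loc h
  have hK0 : 0 < K := one_pos.trans_le hK1
  obtain ⟨η, hη⟩ : ∃ η : ℝ, η = min (1 / 4) (r1 / (2 * K)) := ⟨_, rfl⟩
  have hη0 : 0 < η := by
    rw [hη]
    positivity
  have k1 : η ≤ 1 / 4 := by
    rw [hη]
    exact min_le_left _ _
  have k2 : η ≤ r1 / (2 * K) := by
    rw [hη]
    exact min_le_right _ _
  rw [le_div_iff₀ (by positivity)] at k2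
  refine ⟨η, K * (1 + (‖y0‖ + 1) ^ 2), hη0, by positivity, fun z x hz hx => ?_⟩
  obtain ⟨w1, hw1⟩ : ∃ w1 : ℂ, w1 = z + ((η / 2 : ℝ) : ℂ) := ⟨_, rfl⟩
  have hn1 : ‖z - w1‖ = η / 2 := by
    rw [hw1, sub_add_cancel_left, norm_neg, Complex.norm_real, Real.norm_of_nonneg (by positivity)]
  obtain ⟨y1, hy1⟩ : ∃ y1, φ y1 = (w1 : OnePoint ℂ) := ⟨φ.symm w1, φ.apply_symm_apply _⟩
  have hcz : chord (z : OnePoint ℂ) (w1 : OnePoint ℂ) = ‖z - w1‖ / (√(1 + ‖z‖ ^ 2) * √(1 + ‖w1‖ ^ 2)) := rfl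
  have hcp : 0 < chord (z : OnePoint ℂ) (w1 : OnePoint ℂ) := by
    rw [hcz, hn1]
    have h1 : 0 < √(1 + ‖z‖ ^ 2) := Real.sqrt_pos.2 (by positivity)
    have h2 : 0 < √(1 + ‖w1‖ ^ 2) := Real.sqrt_pos.2 (by positivity)
    positivity
  have hb1 := (hK x y1).1
  rw [hx, hy1] at hb1
  have hxy : 0 < chord x y1 := by
    by_contra hcon
    rw [not_lt] at hcon
    have := mul_nonpos_of_nonneg_of_nonpos hK0.le hcon
    linarith
  have hz1 : ‖z - y0‖ < 1 := by linarith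
  have hw11 : ‖w1 - y0‖ < 1 := by
    have h1 : w1 - y0 = (z - y0) + -(z - w1) := by ring
    rw [h1]
    refine (norm_add_le _ _).trans_lt ?_
    rw [norm_neg, hn1]
    linarith
  have hB := fnd_B' (y0 := y0) hz1 hw11
  refine ⟨‖z - w1‖ / chord x y1, by rw [hn1]; positivity, ?_, fun w y hw hy => ?_⟩
  · rw [div_le_iff₀ hxy]
    have h2 : 0 ≤ 1 + (‖y0‖ + 1) ^ 2 := by positivity
    nlinarith [mul_le_mul_of_nonneg_left hb1 h2]
  · have hww1 : ‖w - w1‖ < 3 / 2 * η := by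
      have h1 : w - w1 = (w - z) + (z - w1) := by ring
      rw [h1]
      refine (norm_add_le _ _).trans_lt ?_
      rw [hn1]
      linarith
    have c1 := chord_loc (x := z) (y := w) (z := w1) (by linarith)
    have hyy : chord y y1 < r1 := by
      refine (hK y y1).2.trans_lt ?_
      rw [hy, hy1]
      have h1 : chord (w : OnePoint ℂ) (w1 : OnePoint ℂ) ≤ ‖w - w1‖ := Pool.Agent.H57.CF.upf_le w w1
      nlinarith
    have m1 := hloc x y y1 hyy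
    have m2 := hloc x y1 y (by rw [Pool.Agent.H44.RC.ch_comm]; exact hyy)
    rw [hx, hy, hy1] at m1 m2
    obtain ⟨A, hA⟩ : ∃ A, A = chord (z : OnePoint ℂ) (w : OnePoint ℂ) := ⟨_, rfl⟩
    obtain ⟨A1, hA1⟩ : ∃ A1, A1 = chord (z : OnePoint ℂ) (w1 : OnePoint ℂ) := ⟨_, rfl⟩
    obtain ⟨B, hB⟩ : ∃ B, B = chord x y := ⟨_, rfl⟩
    obtain ⟨B1, hB1⟩ : ∃ B1, B1 = chord x y1 := ⟨_, rfl⟩
    have hBn : 0 ≤ B := by rw [hB]; exact Pool.Agent.H44.RR.chord_nn _ _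
    have hnn := norm_nonneg (z - w1)
    rw [← hA, ← hA1] at c1
    rw [← hA, ← hA1, ← hB, ← hB1] at m1 m2
    rw [← hA1] at hcp
    rw [← hB1] at hxy
    rw [← hB, ← hB1]
    constructor
    · rw [div_mul_eq_mul_div, div_le_iff₀ hxy]
      refine le_of_mul_le_mul_right ?_ hcp
      have e1 := mul_le_mul_of_nonneg_right m2 hnn
      have e2 := mul_le_mul_of_nonneg_right c1.2 hxy.le
      nlinarith
    · rw [mul_div_assoc', div_mul_eq_mul_div, le_div_iff₀ hxy]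
      refine le_of_mul_le_mul_right ?_ hcp
      have e1 := mul_le_mul_of_nonneg_right m1 hnn
      have e2 := mul_le_mul_of_nonneg_right c1.1 hxy.le
      nlinarith

end Pool.Agent.H64.BE
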