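import Pool.Agent.H64.BE.FB1

/-!
# BEAU, the final part: rings in the plane with a universal ratio
-/

set_option autoImplicit false

open Filter Topology Polynomial Metric Set MeasureTheory

namespace Pool.Agent.H64.BE

open Pool.Agent.H44.Fatou (rat rat_continuous rat_coe rat_coe_of_ne pt crit_coe)
open Pool.Agent.H32.BT Pool.Agent.H79.Eul Pool.Agent.H79.Par
open Pool.Agent.H35.EX Pool.Agent.H44.RR Pool.Agent.H56.HR Pool.Agent.H44.RC Pool.Agent.H47.RJ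
open Pool.Agent.H47.NM Pool.Agent.H47.NN Pool.Agent.H44.ND Pool.Agent.H79.ES Pool.Agent.H44.RG
open Pool.Agent.H44.CP Pool.Agent.H57.CF Pool.Agent.H47.PS Pool.Agent.H64.NC
open Pool.Agent.H61.TT Pool.Agent.H57.CP Pool.Agent.H3.NC Pool.Agent.H18.UP

variable {d : ℕ}

theorem nup_plu {v u : E d} {φ : OnePoint ℂ ≃ₜ OnePoint ℂ} {K : ℝ} {J : Set ℂ} {δ0 : ℝ} (h : CU v u φ K J δ0)
    (hm : MobC φ) {x0 : OnePoint ℂ} (hx : φ x0 ≠ OnePoint.infty) {M κ : ℝ} (hκ0 : 0 < κ) (hκ : 16 * M * κ ≤ 1)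
    (hN : NDk κ (PS (Rf v)) x0) : ∀ δ : ℝ, 0 < δ → ∃ x ∈ PJ (pol u.1) (pol u.2) J, ∃ e R : ℝ,
    0 < e ∧ M * e ≤ R ∧ R ≤ δ ∧ PJ (pol u.1) (pol u.2) J ∩ ball x R ⊆ closedBall x e := by
  intro δ hδ
  obtain ⟨y0, hy0⟩ := OnePoint.ne_infty_iff_exists.1 hx
  have hK : 0 < K := one_pos.trans_le h.K1
  obtain ⟨η, Q, hη, hQ, hsim⟩ := mob_sim hm h.K1 h.bil y0
  have hU : ((↑) : ℂ → OnePoint ℂ) '' ball y0 η ∈ 𝓝 (y0 : OnePoint ℂ) :=
    (OnePoint.isOpenEmbedding_coe.isOpenMap _ isOpen_ball).mem_nhds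
      (mem_image_of_mem _ (mem_ball_self hη))
  obtain ⟨r1, hr1, hr1U⟩ := Pool.Agent.H44.RC.ch_nhds hU
  obtain ⟨ε, hε⟩ : ∃ ε : ℝ, ε = min (r1 / K) (4 * min δ η / Q) := ⟨_, rfl⟩
  have hmin : 0 < min δ η := lt_min hδ hη
  have hε0 : 0 < ε := by
    rw [hε]
    exact lt_min (by positivity) (by positivity)
  have k1 : ε ≤ r1 / K := by
    rw [hε]
    exact min_le_left _ _
  have k2 : ε ≤ 4 * min δ η / Q := by
    rw [hε]
    exact min_le_right _ _
  rw [le_div_iff₀ hQ] at k2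
  obtain ⟨x, hxP, r, hxx, hr0, hrκ, hann⟩ := hN ε hε0
  have h1 : chord (y0 : OnePoint ℂ) (φ x) < r1 := by
    rw [hy0, ch_comm]
    refine (h.bil x x0).1.trans_lt ?_
    have h2 : K * chord x x0 < K * ε := mul_lt_mul_of_pos_left hxx hK
    have h3 : K * ε ≤ K * (r1 / K) := mul_le_mul_of_nonneg_left k1 hK.le
    have h4 : K * (r1 / K) = r1 := by field_simp
    linarith
  obtain ⟨z, hz, hzx⟩ := hr1U h1
  have hzP : z ∈ PJ (pol u.1) (pol u.2) J := by
    rw [← ps_pj h, hzx]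
    exact (ps_conj h x).2 hxP
  obtain ⟨q, hq0, hqQ, hq⟩ := hsim z x (mem_ball_iff_norm.1 hz) hzx.symm
  have hR : q * r / 4 ≤ min δ η := by
    have h2 : q * r ≤ Q * ε := mul_le_mul hqQ hrκ.le hr0.le hQ.le
    linarith [mul_comm Q ε]
  refine ⟨z, hzP, 4 * q * (κ * r), q * r / 4, by positivity, ?_, hR.trans (min_le_left _ _), ?_⟩
  · have h2 : M * (4 * q * (κ * r)) = (16 * M * κ) * (q * r / 4) := by ring
    rw [h2]
    exact mul_le_of_le_one_left (by positivity) hκ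
  · rintro w ⟨hwP, hwb⟩
    rw [mem_ball_iff_norm] at hwb
    obtain ⟨y, hy⟩ : ∃ y, φ y = (w : OnePoint ℂ) := ⟨φ.symm w, φ.apply_symm_apply _⟩
    have hyP : y ∈ PS (Rf v) := by
      rw [← ps_conj h, hy]
      exact (ps_pj h w).2 hwP
    obtain ⟨h2, h3⟩ := hq w y (hwb.trans_le (hR.trans (min_le_right _ _))) hy
    have h4 : chord x y < r := by
      rw [norm_sub_rev] at hwb
      have h5 : q * chord x y < q * r := by linarith
      exact lt_of_mul_lt_mul_left h5 hq0.le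
    have h6 : chord x y < κ * r := by
      by_contra hcon
      rw [not_lt] at hcon
      have h7 := hann y hyP hcon
      linarith
    rw [mem_closedBall_iff_norm, norm_sub_rev]
    exact h3.trans (mul_le_mul_of_nonneg_left h6.le (by positivity))

end Pool.Agent.H64.BE
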