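import Pool.Agent.H64.BE.FB2
import Pool.Agent.H83.BE.RDU
import Pool.Agent.H83.BE.GU
import Pool.Agent.H83.BE.DimS

/-!
# BEAU, the final part: one map with charts, universal constants

`nupu`, `nup_plu`, `rd_u` give a critical point `c ∈ J` with annuli of a large ratio; `ConcP`: a recurrent critical point `r ∈ J` with `c ∈ ω(r)`; `rd2_u`: annuli at `r`; `no_fatM`. Compare H18/UP/FNF.
-/

set_option autoImplicit false

open Filter Topology Polynomial Metric Set MeasureTheory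

namespace Pool.Agent.H64.BE

open Pool.Agent.H44.Fatou (rat rat_continuous rat_coe rat_coe_of_ne pt crit_coe)
open Pool.Agent.H32.BT Pool.Agent.H79.Eul Pool.Agent.H79.Par
open Pool.Agent.H35.EX Pool.Agent.H44.RR Pool.Agent.H56.HR Pool.Agent.H44.RC Pool.Agent.H47.RJ
open Pool.Agent.H47.NM Pool.Agent.H47.NN Pool.Agent.H44.ND Pool.Agent.H79.ES Pool.Agent.H44.RG
open Pool.Agent.H44.CP Pool.Agent.H57.CF Pool.Agent.H47.PS Pool.Agent.H64.NC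
open Pool.Agent.H61.TT Pool.Agent.H57.CP Pool.Agent.H3.NC Pool.Agent.H18.UP
open Pool.Agent.H39.BE (KV Rng)
open Pool.Agent.H83.BE (UPd)

/-- the charts needed at a point of the postcritical set -/
def CHB (d : ℕ) (v : E d) (x0 : OnePoint ℂ) : Prop := ∃ (u : E d) (φ : OnePoint ℂ ≃ₜ OnePoint ℂ) (K : ℝ)
  (J : Set ℂ) (δ0 : ℝ), CU v u φ K J δ0 ∧ MobC φ ∧ Rng (pol u.1) (pol u.2) J (1 / 16) ∧ φ x0 ≠ OnePoint.infty ∧
    ∀ c0 ∈ J, Cr (pol u.1) (pol u.2) c0 → ∃ (Z : Set ℂ) (δ1 R C : ℝ) (q r K' : ℂ → ℂ → ℂ) (Y : ℂ → ℂ) (N : ℕ)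
      (hh X : ℕ → ℂ → ℂ), KV (pol u.1) (pol u.2) J Z c0 δ1 R C q r K' Y N hh X

theorem beau_map (d : ℕ) : ∃ κ : ℝ, 0 < κ ∧ κ < 1 ∧ ∀ {v : E d}, ConcP (Rf v) → (∀ x0 ∈ PS (Rf v), CHB d v x0) →
    UPd κ (PS (Rf v)) := by
  obtain ⟨M2, hM2, hnf⟩ := Pool.Agent.H39.BE.no_fatM (Pool.Agent.H83.BE.geoU d (θ := 1 / 16) (by norm_num))
  obtain ⟨M3, hM3, hr2⟩ := Pool.Agent.H83.BE.rd2_u d M2 hM2
  obtain ⟨M4, hM4, hr1⟩ := Pool.Agent.H83.BE.rd_u d M3 hM3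
  refine ⟨min (1 / (16 * M4)) (1 / 2), lt_min (by positivity) (by norm_num),
    (min_le_right _ _).trans_lt (by norm_num), ?_⟩
  have hκ0 : 0 < min (1 / (16 * M4)) (1 / 2) := lt_min (by positivity) (by norm_num)
  have hκ1 : 16 * M4 * min (1 / (16 * M4)) (1 / 2) ≤ 1 := by
    have h1 : 16 * M4 * min (1 / (16 * M4)) (1 / 2) ≤ 16 * M4 * (1 / (16 * M4)) :=
      mul_le_mul_of_nonneg_left (min_le_left _ _) (by positivity)
    have h2 : 16 * M4 * (1 / (16 * M4)) = 1 := by field_simp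
    linarith
  generalize min (1 / (16 * M4)) (1 / 2) = κ at hκ0 hκ1
  intro v hConc hCU
  by_contra hN
  obtain ⟨x0, hx0, hND⟩ := nupu (κ := κ) isClosed_closure hN
  obtain ⟨u, φ, K, J, δ0, hU, hmob, hRng, hinf, hKD⟩ := hCU x0 hx0
  have hG := hU.geo
  obtain ⟨c, hcJ, hcr, hF⟩ := hr1 hG (nup_plu hU hmob hinf hκ0 hκ1 hND)
  have hcrit : IsCrit (Rf u) (c : OnePoint ℂ) := (crit_iff hG hcr.1).2 hcr.2
  have hcJS : (c : OnePoint ℂ) ∈ JS (Rf u) := (hU.Jz c).1 hcJ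
  obtain ⟨c', hc'⟩ := φ.surjective (c : OnePoint ℂ)
  have hjs : ∀ x, φ x ∈ JS (Rf u) ↔ x ∈ JS (Rf v) := fun x =>
    not_congr (Pool.Agent.H76.SU.fs_conj hU.bil hU.conj x)
  have hcrc : IsCrit (Rf v) c' := by
    rw [← isCrit_conj φ hU.conj, hc']
    exact hcrit
  obtain ⟨r', hr1, hr2', hr3, hr4⟩ := hConc.1 c' hcrc ((hjs c').1 (by rw [hc']; exact hcJS))
  have hr1' : IsCrit (Rf u) (φ r') := (isCrit_conj φ hU.conj r').2 hr1
  have hr2'' := (hjs r').2 hr2'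
  obtain ⟨r, hr⟩ := hU.cr _ hr1' hr2''
  have hrJ : r ∈ J := (hU.Jz r).2 (by rw [← hr]; exact hr2'')
  have hrr : (r : OnePoint ℂ) ∈ Om (Rf u) (r : OnePoint ℂ) := by
    rw [← hr]
    exact (om_conj' hU.conj).2 hr3
  have hcr' : (c : OnePoint ℂ) ∈ Om (Rf u) (r : OnePoint ℂ) := by
    rw [← hr, ← hc']
    exact (om_conj' hU.conj).2 hr4
  have hRc : Rcr (pol u.1) (pol u.2) r := om_pre hU hrJ hrr
  have hω := om_pre hU hrJ hcr'
  have hb : (pol u.2).eval r ≠ 0 := by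
    obtain ⟨n, hn, hn2⟩ := hRc 1 one_pos
    exact (mem_pre.1 hn2).1 0 hn
  have hrC : Cr (pol u.1) (pol u.2) r := ⟨hb, (crit_iff hG hb).1 (by rw [← hr]; exact hr1')⟩
  obtain ⟨Z, δ1, R, C, q, rr, K', Y, N, hh, X, hk⟩ := hKD r hrJ hrC
  exact hnf hG hRng hk hRc (hr2 hG hcJ hcr hrJ hrC hF hω)

end Pool.Agent.H64.BE
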