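import Pool.Agent.H64.BE.MBD
import Pool.Agent.H64.NC.NSB
import Pool.Agent.H66.UP.CS

/-!
# BEAU: the charts are conformal

`cht_up_m`: the chart of `all_up` (H83/UP/ALL), `red_gen_m`: `red_gen` (H57/CF/ALF), `cht_upF_m`: the chart of `all_upF`, `ch_s_m`: `ch_s` (H66/UP/CS), all with `MobC φ`.
-/

set_option autoImplicit false

open Filter Topology Polynomial Metric Set MeasureTheory

namespace Pool.Agent.H64.BE

open Pool.Agent.H44.Fatou (rat rat_continuous ev wv crit_coe)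
open Pool.Agent.H56.HR (FS EqAt)
open Pool.Agent.H32.BT Pool.Agent.H79.Eul Pool.Agent.H79.Par Pool.Agent.H47.NN Pool.Agent.H44.ND
open Pool.Agent.H79.ES Pool.Agent.H35.EX Pool.Agent.H44.RC Pool.Agent.H47.RJ Pool.Agent.H84.BR
open Pool.Agent.H61.TT Pool.Agent.H57.CP Pool.Agent.H3.NC Pool.Agent.H57.CF Pool.Agent.H47.NM Pool.Agent.H47.PS
open Pool.Agent.H64.NC Pool.Agent.H44.RR

variable {d : ℕ} {v : E d}

/-- all rational maps -/
theorem cht_up_m (hd : 2 ≤ d) (hcop : IsCoprime (pol v.1) (pol v.2))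
    (hdeg : max (pol v.1).natDegree (pol v.2).natDegree = d) (hup : ¬ Up v)
    (hF : (FS (Rf v)).Nonempty) :
    ∃ (u : E d) (φ : OnePoint ℂ ≃ₜ OnePoint ℂ) (K : ℝ) (T : Set (OnePoint ℂ)), MobC φ ∧
      (∀ x y, chord (φ x) (φ y) ≤ K * chord x y ∧ chord x y ≤ K * chord (φ x) (φ y)) ∧
      (∀ x, Rf u (φ x) = φ (Rf v x)) ∧ GA u T ∧ ¬ Up u := by
  obtain ⟨x0, hx0⟩ := hF
  obtain ⟨z, n, hs, -⟩ := Pool.Agent.H64.MJ.fs_att hd hcop hdeg hup hx0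
  obtain ⟨p1, p2, h12, h1z, h2z⟩ : ∃ p1 p2 : OnePoint ℂ, p1 ≠ p2 ∧ p1 ≠ z ∧ p2 ≠ z := by
    have hinf : (({z} : Set (OnePoint ℂ))ᶜ).Infinite := (finite_singleton z).infinite_compl
    obtain ⟨p1, hp1⟩ := hinf.nonempty
    obtain ⟨p2, hp2⟩ := (hinf.sdiff (finite_singleton p1)).nonempty
    exact ⟨p1, p2, fun h => hp2.2 h.symm, hp1, hp2.1⟩
  obtain ⟨L, G, φ, K, ⟨hch, hm⟩, -, -, -, fi⟩ := ch_three_m (d := d) hd h12 h1z h2z
  obtain ⟨hcop1, hdeg1, hφ⟩ := hch.conj v hcop hdeg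
  have hup1 : ¬ Up (L v) := fun h =>
    hup (up_chart hd hch.cG hch.invL hch.invR (fun v h3 h4 => (hch.conj v h3 h4).2.2) hcop hdeg h)
  have hs1 : IsSink (Rf (L v)) OnePoint.infty n := by
    rw [← fi]
    exact (isSink_conj φ hφ z n).2 hs
  obtain ⟨T, hT, hTi⟩ := trap_of_sink hcop1 (by rw [hdeg1]; exact hd) hs1
  have hGA : GA (L v) T :=
    ⟨hd, hcop1, hdeg1, fun p hp x m hcy hm => hup1 (Pool.Agent.H44.CP.neu_up hd hcop1 hdeg1 hp hcy hm),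
      fun x hx => Pool.Agent.H44.NR.att_in hd hcop1 hdeg1 hup1 hx,
      fun x hx => Pool.Agent.H64.MJ.fs_att hd hcop1 hdeg1 hup1 hx, hT, hTi⟩
  exact ⟨L v, φ, K, T, hm, hch.bil, hφ, hGA, hup1⟩

/-- a map of the family is after an inclusion and a translation generic -/
theorem red_gen_m {k : ℕ} (hd : 2 ≤ d) (hk : 2 ≤ k) (hkd : k ≤ d) {x : Em d k} (hcop : IsCoprime (pol x.1) (pol x.2))
    (hdeg : max (pol x.1).natDegree (pol x.2).natDegree = d) :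
    ∃ (l : ℕ) (z : Em d l) (φ : OnePoint ℂ ≃ₜ OnePoint ℂ) (K : ℝ), 2 ≤ l ∧ l ≤ d ∧ GenM d l (pol z.1) (pol z.2) ∧
      MobC φ ∧ (∀ x y, chord (φ x) (φ y) ≤ K * chord x y ∧ chord x y ≤ K * chord (φ x) (φ y)) ∧
      (∀ y, Rf (ex d l z) (φ y) = φ (Rf (ex d k x) y)) ∧ (UpF d l z → UpF d k x) := by
  obtain ⟨l, y, hkl, hld, hn, rfl⟩ := em_sur hkd x
  have hl2 : 2 ≤ l := by omega
  rw [em_pol hkl y] at hcop hdeg hn
  have hcop' : IsCoprime (pol y.1) (pol y.2) := hcop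
  have hdeg' : max (pol y.1).natDegree (pol y.2).natDegree = d := hdeg
  have ha := fam_a hl2 hld hdeg'
  have hQ0 : pol y.2 ≠ 0 := den_ne_zero hcop' (by rw [hdeg']; omega)
  have hR0 : pol y.1 - X * pol y.2 ≠ 0 := by
    intro h
    have h1 := sub_eq_zero.1 h
    have h2 : (X * pol y.2).natDegree ≤ d - l + 1 := by
      refine natDegree_mul_le.trans ?_
      rw [natDegree_X]
      have := pol_deg y.2
      omega
    rw [← h1, ha] at h2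
    omega
  obtain ⟨s, hs⟩ : ∃ s : ℂ, (pol y.2 * (pol y.1 - X * pol y.2)).eval s ≠ 0 := by
    by_contra hno
    push Not at hno
    exact mul_ne_zero hQ0 hR0 (Polynomial.funext fun r => by rw [hno r, eval_zero])
  rw [eval_mul, eval_sub, eval_mul, eval_X] at hs
  have hs2 := left_ne_zero_of_mul hs
  have hs1 := right_ne_zero_of_mul hs
  have hg : GenM d l (pol (Tr d l s y).1) (pol (Tr d l s y).2) := by
    refine ⟨tr_cop hcop', tr_dega hl2 hld hdeg', by rw [tr_degb, hn], ?_, ?_⟩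
    · rw [pol_tr1, eval_sub, eval_mul, eval_C, eval_comp, eval_comp, eval_add, eval_X, eval_C, zero_add]
      exact hs1
    · rw [pol_tr2, eval_comp, eval_add, eval_X, eval_C, zero_add]
      exact hs2
  obtain ⟨φ, h1, -, hm, K, hK⟩ := mobc_tr s
  refine ⟨l, Tr d l s y, φ, K, hl2, hld, hg, hm, hK, ?_, ?_⟩
  · rw [em_ex hkl]
    exact tr_conj hd hcop' hdeg' h1 hl2 hld
  · intro h
    exact em_up hkl (tr_up hd hl2 hld s hcop' hdeg' h)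

/-- the families -/
theorem cht_upF_m {k : ℕ} (hd : 2 ≤ d) (hk : 2 ≤ k) (hkd : k ≤ d) {x : Em d k} (hcop : IsCoprime (pol x.1) (pol x.2))
    (hdeg : max (pol x.1).natDegree (pol x.2).natDegree = d) (hup : ¬ UpF d k x) :
    ∃ (l : ℕ) (y : Em d l) (φ : OnePoint ℂ ≃ₜ OnePoint ℂ) (K : ℝ) (T : Set (OnePoint ℂ)), 2 ≤ l ∧ l ≤ d ∧
      GenM d l (pol y.1) (pol y.2) ∧ ¬ UpF d l y ∧ MobC φ ∧
      (∀ x y, chord (φ x) (φ y) ≤ K * chord x y ∧ chord x y ≤ K * chord (φ x) (φ y)) ∧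
      (∀ z, Rf (ex d l y) (φ z) = φ (Rf (ex d k x) z)) ∧ GA (ex d l y) T := by
  obtain ⟨l, y, φ, K, hl, hld, hg, hm, hK, hφ, hup'⟩ := red_gen_m hd hk hkd hcop hdeg
  have hupy : ¬ UpF d l y := fun h => hup (hup' h)
  obtain ⟨T, hGA⟩ := ga_gen hd hl hld hg hupy
  exact ⟨l, y, φ, K, T, hl, hld, hg, hupy, hm, hK, hφ, hGA⟩

/-- Julia set = sphere -/
theorem ch_s_m (hd : 2 ≤ d) (hcop : IsCoprime (pol v.1) (pol v.2))
    (hdeg : max (pol v.1).natDegree (pol v.2).natDegree = d) (hup : ¬ Up v) (hJ : JS (Rf v) = univ)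
    (y : OnePoint ℂ) : ∃ (L G : E d → E d) (φ : OnePoint ℂ ≃ₜ OnePoint ℂ) (K : ℝ), Ch d L G φ K ∧ MobC φ ∧
      φ y ≠ OnePoint.infty ∧ Rf (L v) ((0 : ℂ) : OnePoint ℂ) = ((0 : ℂ) : OnePoint ℂ) ∧
      Rf (L v) ((1 : ℂ) : OnePoint ℂ) = ((1 : ℂ) : OnePoint ℂ) ∧ Rf (L v) OnePoint.infty = OnePoint.infty ∧
      ¬ Up (L v) ∧ JS (Rf (L v)) = univ := by
  have hJa : ∀ x, x ∈ JS (Rf v) := fun x => hJ ▸ mem_univ x
  obtain ⟨q1, q2, q3, n12, n13, n23, e1, e2, e3, hq3⟩ := three_fix' hd hcop hdeg hup hJ y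
  obtain ⟨L, G, φ, K, ⟨hch, hm⟩, -, f0, f1, fi⟩ := ch_three_m (d := d) hd n12 n13 n23
  obtain ⟨hcop1, hdeg1, hφ⟩ := hch.conj v hcop hdeg
  refine ⟨L, G, φ, K, hch, hm, ?_, ?_, ?_, ?_, ?_, ?_⟩
  · intro h
    rw [← fi] at h
    exact hq3 (φ.injective h).symm
  · rw [← f0, hφ, e1]
  · rw [← f1, hφ, e2]
  · rw [← fi, hφ, e3]
  · exact fun h => hup (up_chart hd hch.cG hch.invL hch.invR (fun v h3 h4 => (hch.conj v h3 h4).2.2) hcop hdeg h)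
  · rw [eq_univ_iff_forall]
    intro y
    obtain ⟨x, rfl⟩ := φ.surjective y
    intro h
    exact hJa x ((Pool.Agent.H76.SU.fs_conj hch.bil hφ x).1 h)

end Pool.Agent.H64.BE
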