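import Pool.Agent.H64.BE.NGG
import Pool.Agent.H64.NC.DCH
import Pool.Agent.H64.NC.NSB
import Pool.Agent.H18.UP.USZ
import Pool.Agent.H66.UP.GS
import Pool.Agent.H39.BE.Defs

/-!
# BEAU: rings at the critical points in the charts
-/

set_option autoImplicit false

open Filter Topology Polynomial Metric Set MeasureTheory

namespace Pool.Agent.H64.BE

open Pool.Agent.H44.Fatou (rat rat_continuous rat_coe rat_coe_of_ne pt ev wv crit_coe)
open Pool.Agent.H56.HR (FS EqAt)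
open Pool.Agent.H32.BT Pool.Agent.H79.Eul Pool.Agent.H79.Par Pool.Agent.H47.NN Pool.Agent.H44.ND
open Pool.Agent.H79.ES Pool.Agent.H35.EX Pool.Agent.H44.RC Pool.Agent.H47.RJ Pool.Agent.H84.BR
open Pool.Agent.H61.TT Pool.Agent.H57.CP Pool.Agent.H3.NC Pool.Agent.H57.CF Pool.Agent.H47.NM Pool.Agent.H47.PS
open Pool.Agent.H64.NC Pool.Agent.H18.UP Pool.Agent.H66.UP Pool.Agent.H78.NS

variable {d : ℕ} {v : E d}

theorem rng_us0 {D : ℕ} {u : E d} {δ0 R0 : ℝ} (hU : US0 d D (pol u.1) (pol u.2) (JC u) δ0 R0)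
    (hPR : ∀ c, IsCrit (Rf u) c → c ∈ JS (Rf u) → PR (Rf u) c) :
    Pool.Agent.H39.BE.Rng (pol u.1) (pol u.2) (JC u) (1 / 16) := by
  refine rng hU fun c hc hw => ?_
  have hd := hU.ns.rt.hd
  exact hPR _ (crit_of_wr hU.ns.rt.cop (by rw [hU.ns.rt.deg]; omega) hw) hc

/-- all rational maps -/
theorem rng_up {u : E d} {T : Set (OnePoint ℂ)} (h : GA u T) (hup : ¬ Up u) {c : ℂ}
    (hc : IsCrit (Rf u) (c : OnePoint ℂ)) (hcJ : (c : OnePoint ℂ) ∈ JS (Rf u)) :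
    Pool.Agent.H39.BE.Rng (pol u.1) (pol u.2) (JC u) (1 / 16) := by
  have hd := h.hd
  have hrt : RatD d (pol u.1) (pol u.2) := ⟨h.hd, h.cop, h.deg⟩
  have hw := Pool.Agent.H1.PU.ww_deg hrt
  obtain ⟨δ0, R0, hU⟩ := Pool.Agent.H18.UP.us0 h (D := 2 * d) (by omega) (by omega) hc hcJ (fun x hx => lagr hrt hx)
  exact rng_us0 hU (pr_of h.hd h.cop h.deg (fun y hy => Pool.Agent.H64.MJ.fs_att h.hd h.cop h.deg hup hy)
      (fun y hy => Pool.Agent.H44.NR.att_in h.hd h.cop h.deg hup hy)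
      fun c hc hcJ => nc_up h.hd h.cop h.deg hup ⟨_, h.fi⟩ hc hcJ)

/-- the families -/
theorem rng_upF {k : ℕ} (hd : 2 ≤ d) (hk : 2 ≤ k) (hkd : k ≤ d) {x : Em d k} (hg : GenM d k (pol x.1) (pol x.2))
    (hup : ¬ UpF d k x) {T : Set (OnePoint ℂ)} (h : GA (ex d k x) T) {c : ℂ}
    (hc : IsCrit (Rf (ex d k x)) (c : OnePoint ℂ)) (hcJ : (c : OnePoint ℂ) ∈ JS (Rf (ex d k x))) :
    Pool.Agent.H39.BE.Rng (pol (ex d k x).1) (pol (ex d k x).2) (JC (ex d k x)) (1 / 16) := by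
  have hrt : RatD d (pol (ex d k x).1) (pol (ex d k x).2) := ⟨h.hd, h.cop, h.deg⟩
  have hbl : (pol (ex d k x).2).natDegree + k ≤ d := by
    rw [(fam_ex hk hkd hg).hb]
    omega
  have hw : (Pool.Agent.H61.TT.ww (pol (ex d k x).1) (pol (ex d k x).2)).natDegree ≤ (2 * d - k) + 1 := by
    have ha : (pol (ex d k x).1).natDegree ≤ d := (le_max_left _ _).trans (le_of_eq h.deg)
    have ha' := natDegree_derivative_le (pol (ex d k x).1)
    have hb' := natDegree_derivative_le (pol (ex d k x).2)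
    unfold Pool.Agent.H61.TT.ww
    refine (natDegree_sub_le _ _).trans (max_le ?_ ?_)
    · refine natDegree_mul_le.trans ?_
      omega
    · refine natDegree_mul_le.trans ?_
      omega
  obtain ⟨δ0, R0, hU⟩ := Pool.Agent.H18.UP.us0 h (D := 2 * d - k) (by omega) hw hc hcJ
    (fun x hx => Pool.Agent.H79.GP.lagn hrt (by omega) hkd hbl hx)
  exact rng_us0 hU (pr_all hd hkd hg.cop (genM_deg hg) hup ⟨_, h.fi⟩)

/-- Julia set = sphere -/
theorem rng_s (hd : 2 ≤ d) (hcop : IsCoprime (pol v.1) (pol v.2))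
    (hdeg : max (pol v.1).natDegree (pol v.2).natDegree = d) (hJ : JS (Rf v) = univ)
    (hinf : rat (pol v.1) (pol v.2) OnePoint.infty = OnePoint.infty) :
    Pool.Agent.H39.BE.Rng (pol v.1) (pol v.2) univ (1 / 16) := by
  have hJm : ∀ x : OnePoint ℂ, x ∈ JS (Rf v) := fun x => hJ ▸ mem_univ x
  have hper : ∀ (x : ℂ) (p : ℕ), 0 < p → (rat (pol v.1) (pol v.2))^[p] (x : OnePoint ℂ) = (x : OnePoint ℂ) →
      ∀ i : ℕ, (rat (pol v.1) (pol v.2))^[i] (x : OnePoint ℂ) ≠ OnePoint.infty := by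
    intro x p hp hx i h1
    have h2 : i ≤ p * i := Nat.le_mul_of_pos_left _ hp
    have h3 := inf_it hinf h2 h1
    rw [Function.iterate_mul, Function.iterate_fixed hx] at h3
    exact OnePoint.coe_ne_infty _ h3
  refine ⟨1, one_pos, fun c _ hc ρ hρ _ => ?_⟩
  have hU : (fun z : ℂ => (z : OnePoint ℂ)) '' ball (c + ((3 * ρ / 16 : ℝ) : ℂ)) (ρ / 16) ∈
      𝓝 (((c + ((3 * ρ / 16 : ℝ) : ℂ) : ℂ)) : OnePoint ℂ) :=
    (OnePoint.isOpenEmbedding_coe.isOpenMap _ isOpen_ball).mem_nhds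
      ⟨_, mem_ball_self (by positivity), rfl⟩
  obtain ⟨x, ⟨w, hw, rfl⟩, N, hN, hwN⟩ := Pool.Agent.H44.NR.per_dense hd hcop hdeg (hJm _) hU
  have hwN' : (rat (pol v.1) (pol v.2))^[N] (w : OnePoint ℂ) = (w : OnePoint ℂ) := hwN
  rw [mem_ball, dist_eq_norm] at hw
  have h16 : ‖((3 * ρ / 16 : ℝ) : ℂ)‖ = 3 * ρ / 16 := by
    rw [Complex.norm_real, Real.norm_eq_abs, abs_of_pos (by positivity)]
  have e : w - c = (w - (c + ((3 * ρ / 16 : ℝ) : ℂ))) + ((3 * ρ / 16 : ℝ) : ℂ) := by ring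
  refine ⟨w, mem_univ _, ?_, ?_, N, hN, ?_⟩
  · have h1 := norm_sub_norm_le (((3 * ρ / 16 : ℝ) : ℂ)) (-(w - (c + ((3 * ρ / 16 : ℝ) : ℂ))))
    rw [norm_neg, h16] at h1
    have e2 : ((3 * ρ / 16 : ℝ) : ℂ) - -(w - (c + ((3 * ρ / 16 : ℝ) : ℂ))) = w - c := by ring
    rw [e2] at h1
    linarith
  · rw [e]
    refine (norm_add_le _ _).trans ?_
    rw [h16]
    linarith
  · rw [mem_pre]
    have horb := fun i => fin_orba hinf (hper w N hN hwN') i
    refine ⟨fun i _ => (horb i).1, ?_⟩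
    have h1 := (horb N).2
    rw [hwN'] at h1
    exact (OnePoint.coe_injective h1).symm

end Pool.Agent.H64.BE
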