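import Pool.Agent.H64.BE.FB3
import Pool.Agent.H64.BE.MBE
import Pool.Agent.H64.BE.MBF
import Pool.Agent.H83.BE.ALV

/-!
# BEAU, the final part: the charts if the Julia set is not the sphere
-/

set_option autoImplicit false

open Filter Topology Polynomial Metric Set MeasureTheory

namespace Pool.Agent.H64.BE

open Pool.Agent.H44.Fatou (rat rat_continuous rat_coe rat_coe_of_ne pt crit_coe)
open Pool.Agent.H32.BT Pool.Agent.H79.Eul Pool.Agent.H79.Par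
open Pool.Agent.H35.EX Pool.Agent.H44.RR Pool.Agent.H56.HR Pool.Agent.H44.RC Pool.Agent.H47.RJ
open Pool.Agent.H47.NM Pool.Agent.H47.NN Pool.Agent.H44.ND Pool.Agent.H79.ES Pool.Agent.H44.RG
open Pool.Agent.H44.CP Pool.Agent.H57.CF Pool.Agent.H47.PS Pool.Agent.H64.NC
open Pool.Agent.H61.TT Pool.Agent.H57.CP Pool.Agent.H3.NC Pool.Agent.H18.UP
open Pool.Agent.H39.BE (KV Rng)
open Pool.Agent.H83.BE (UPd DATV datv_up datv_upF)

variable {d : ℕ}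

theorem chb_ga (hd : 2 ≤ d) {v u : E d} {φ : OnePoint ℂ ≃ₜ OnePoint ℂ} {K : ℝ}
    (hcop : IsCoprime (pol v.1) (pol v.2)) (hdeg : max (pol v.1).natDegree (pol v.2).natDegree = d) (hm : MobC φ)
    (bil : ∀ x y, chord (φ x) (φ y) ≤ K * chord x y ∧ chord x y ≤ K * chord (φ x) (φ y))
    (conj : ∀ x, Rf u (φ x) = φ (Rf v x)) (hinf : OnePoint.infty ∈ FS (Rf u)) (hD : DATV d (pol u.1) (pol u.2) (JC u))
    (hR : Rng (pol u.1) (pol u.2) (JC u) (1 / 16)) : ∀ x0 ∈ PS (Rf v), CHB d v x0 := by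
  intro x0 hx0
  obtain ⟨δ0, hG, -, hKD⟩ := hD
  have hn : OnePoint.infty ∉ JS (Rf u) := fun hn => hn hinf
  refine ⟨u, φ, K, JC u, δ0, ⟨k_one bil, bil, conj, hG, fun z => Iff.rfl, fun c _ hc => ?_, Or.inr hn⟩, hm, hR, ?_, hKD⟩
  · have h1 : c ≠ OnePoint.infty := fun e => hn (e ▸ hc)
    obtain ⟨z, hz⟩ := OnePoint.ne_infty_iff_exists.1 h1
    exact ⟨z, hz.symm⟩
  · intro e
    have h1 := ps_js (by omega) hcop hdeg hx0
    have h2 : φ x0 ∈ JS (Rf u) := fun hn => h1 ((Pool.Agent.H76.SU.fs_conj bil conj x0).1 hn)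
    rw [e] at h2
    exact hn h2

/-- the critical point in the chart -/
theorem crit_in {v u : E d} {φ : OnePoint ℂ ≃ₜ OnePoint ℂ} {K : ℝ}
    (bil : ∀ x y, chord (φ x) (φ y) ≤ K * chord x y ∧ chord x y ≤ K * chord (φ x) (φ y))
    (conj : ∀ x, Rf u (φ x) = φ (Rf v x)) (hinf : OnePoint.infty ∈ FS (Rf u)) {c : OnePoint ℂ}
    (hc : IsCrit (Rf v) c) (hcJ : c ∈ JS (Rf v)) :
    ∃ c1 : ℂ, IsCrit (Rf u) (c1 : OnePoint ℂ) ∧ (c1 : OnePoint ℂ) ∈ JS (Rf u) := by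
  have hJ : φ c ∈ JS (Rf u) := fun h1 => hcJ ((Pool.Agent.H76.SU.fs_conj bil conj c).1 h1)
  have hi : φ c ≠ OnePoint.infty := by
    intro h1
    rw [h1] at hJ
    exact hJ hinf
  obtain ⟨c1, hc1⟩ := OnePoint.ne_infty_iff_exists.1 hi
  refine ⟨c1, ?_, ?_⟩
  · rw [hc1]
    exact (isCrit_conj φ conj c).2 hc
  · rw [hc1]
    exact hJ

/-- all rational maps, Julia set not the sphere -/
theorem chb_up (hd : 2 ≤ d) {v : E d} (hcop : IsCoprime (pol v.1) (pol v.2))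
    (hdeg : max (pol v.1).natDegree (pol v.2).natDegree = d) (hup : ¬ Up v) (hJ : JS (Rf v) ≠ univ) :
    ∀ x0 ∈ PS (Rf v), CHB d v x0 := by
  intro x0 hx0
  obtain ⟨c, hc, hcJ⟩ := ps_crit hx0
  have hF : (FS (Rf v)).Nonempty := by
    obtain ⟨x, hx⟩ := (ne_univ_iff_exists_notMem _).1 hJ
    exact ⟨x, not_not.1 hx⟩
  obtain ⟨u, φ, K, T, hm, bil, conj, hGA, hup1⟩ := cht_up_m hd hcop hdeg hup hF
  obtain ⟨c1, hc1, hcJ1⟩ := crit_in bil conj hGA.fi hc hcJ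
  exact chb_ga hd hcop hdeg hm bil conj hGA.fi (datv_up hGA hup1 hc1 hcJ1) (rng_up hGA hup1 hc1 hcJ1) x0 hx0

/-- the families -/
theorem chb_upF (hd : 2 ≤ d) {k : ℕ} (hk : 2 ≤ k) (hkd : k ≤ d) {x : Em d k} (hcop : IsCoprime (pol x.1) (pol x.2))
    (hdeg : max (pol x.1).natDegree (pol x.2).natDegree = d) (hup : ¬ UpF d k x) :
    ∀ x0 ∈ PS (Rf (ex d k x)), CHB d (ex d k x) x0 := by
  intro x0 hx0
  obtain ⟨c, hc, hcJ⟩ := ps_crit hx0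
  obtain ⟨l, y, φ, K, T, hl, hld, hg, hupy, hm, bil, conj, hGA⟩ := cht_upF_m hd hk hkd hcop hdeg hup
  obtain ⟨c1, hc1, hcJ1⟩ := crit_in bil conj hGA.fi hc hcJ
  exact chb_ga hd (ex_cop hcop) (ex_deg hdeg) hm bil conj hGA.fi (datv_upF hd hl hld hg hupy hGA hc1 hcJ1)
    (rng_upF hd hl hld hg hupy hGA hc1 hcJ1) x0 hx0

end Pool.Agent.H64.BE
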