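import Pool.Agent.H18.UP.BAS

/-!
# BEAU, no gaps: the first time at which the image of a small disc at a point of `J` has definite size

PROOF. `J` is compact (`h.ns.Jc`, bounded by `h.ns.bd` with `n = 0`). Uniform continuity: there is `δ' > 0` (`δ' ≤ δ`) with: `y ∈ J`, `‖w - y‖ < δ'` implies `b w ≠ 0` and `‖gg w - gg y‖ < δ` (`gg` is continuous at the points of `J`; compactness: `IsCompact.exists_..` with the open sets `{w | b w ≠ 0}` and a Lebesgue number, or `CompactSpace` uniform continuity; by contradiction with sequences: `y_m ∈ J` converges along a subsequence, `w_m` too).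
Given `c ∈ J`, `N`: each `gg^[j]`, `j ≤ N`, is continuous at `c` and `c ∈ pre^[j] univ` (`b ≠ 0` on `J`, `itJ`): `pre^[j] (ball (gg^[j] c) δ)` is open (`pre_open`) and contains `c`, so there is `s0` with `ball c s0 ⊆ pre^[j] (ball (gg^[j] c) δ)` for all `j ≤ N`. Let `0 < s ≤ s0`.
There is `n` with not `ball c s ⊆ pre^[n] (ball (gg^[n] c) δ)`: `h.ex c _ s` gives `n`, `z ∈ ball c s` with `rat^[n] z ≠ w` for all `w ∈ ball (gg^[n] c) δ0`; if `z ∈ pre^[n] (ball .. δ)` then `rat^[n] z = gg^[n] z` (as `g_rat` in BAS, for `NS`: use `mem_pre` and `rat_coe_of_ne`, induction), in the ball. Let `n` be the first such time (`Nat.find`), `n ≥ N + 1`, `k = n - 1 ≥ N`.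
`ball c s ⊆ pre^[k] (ball (gg^[k] c) δ)`, and some `z ∈ ball c s` is not in `pre^[k+1] (ball (gg^[k+1] c) δ)`. If `‖gg^[k] z - gg^[k] c‖ < δ'` then `b (gg^[k] z) ≠ 0` and `gg^[k+1] z ∈ ball (gg^[k+1] c) δ` (`gg^[k] c ∈ J`): contradiction (`mem_pre`, `Function.iterate_succ_apply'`).
-/

set_option autoImplicit false

open Filter Topology Polynomial Metric Set

namespace Pool.Agent.H64.BE

open Pool.Agent.H44.Fatou (rat rat_continuous rat_coe rat_coe_of_ne pt crit_coe)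
open Pool.Agent.H61.TT Pool.Agent.H57.CP Pool.Agent.H3.NC Pool.Agent.H18.UP

variable {d D : ℕ} {a b : Polynomial ℂ} {J : Set ℂ} {δ0 R0 : ℝ}

/-- the orbit in the plane is the orbit on the sphere -/
theorem rat_gg {n : ℕ} {z : ℂ} {S : Set ℂ} (hz : z ∈ (pre a b)^[n] S) {i : ℕ} (hi : i ≤ n) :
    (rat a b)^[i] (z : OnePoint ℂ) = (((gg a b)^[i] z : ℂ) : OnePoint ℂ) := by
  exact rat_it (mem_pre.1 hz).1 i hi

theorem exit (h : US0 d D a b J δ0 R0) {δ : ℝ} (hδ : 0 < δ) (hδ0 : δ ≤ δ0) : ∃ δ' : ℝ, 0 < δ' ∧ ∀ c ∈ J, ∀ N : ℕ,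
    ∃ s0 : ℝ, 0 < s0 ∧ ∀ s, 0 < s → s ≤ s0 → ∃ k, N ≤ k ∧ ball c s ⊆ (pre a b)^[k] (ball ((gg a b)^[k] c) δ) ∧
      ∃ z ∈ ball c s, δ' ≤ ‖(gg a b)^[k] z - (gg a b)^[k] c‖ := by
  have hJb : J ⊆ closedBall 0 R0 := by
    intro y hy
    obtain ⟨z, hz, hzR⟩ := h.ns.bd 0 (y : OnePoint ℂ) ⟨y, hy, y, mem_ball_self h.ns.hδ0, rfl⟩
    rw [mem_closedBall, dist_zero_right, OnePoint.coe_injective hz]
    exact hzR
  have hJK : IsCompact J := (isCompact_closedBall (0 : ℂ) R0).of_isClosed_subset h.ns.Jc hJb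
  have hU : IsOpen {z : ℂ | b.eval z ≠ 0} := isOpen_ne_fun b.continuous continuous_const
  have hfc : ∀ y ∈ J, ContinuousAt (gg a b) y := fun y hy =>
    a.continuous.continuousAt.div b.continuous.continuousAt (h.ns.Jn y hy)
  obtain ⟨δ1, hδ1, hsub⟩ := hJK.exists_thickening_subset_open hU (fun y hy => h.ns.Jn y hy)
  obtain ⟨δ2, hδ2, hcont⟩ := Metric.mem_uniformity_dist.1
    (hJK.uniformContinuousAt_of_continuousAt (gg a b) hfc (Metric.dist_mem_uniformity hδ))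
  have hmin : 0 < min δ1 δ2 := lt_min hδ1 hδ2
  refine ⟨min δ1 δ2, hmin, fun c hc N => ?_⟩
  have hcJ : ∀ j : ℕ, (gg a b)^[j] c ∈ J := fun j => itJ h.ns hc j
  have hev : ∀ᶠ z in 𝓝 c, ∀ j ∈ Finset.range (N + 1), z ∈ (pre a b)^[j] (ball ((gg a b)^[j] c) δ) := by
    rw [Filter.eventually_all_finset]
    intro j _
    refine (pre_open isOpen_ball).mem_nhds ?_
    exact mem_pre.2 ⟨fun i _ => h.ns.Jn _ (hcJ i), mem_ball_self hδ⟩
  obtain ⟨s0, hs0, hs0'⟩ := Metric.eventually_nhds_iff_ball.1 hev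
  refine ⟨s0, hs0, fun s hs hss => ?_⟩
  have hex : ∃ n : ℕ, ¬ ball c s ⊆ (pre a b)^[n] (ball ((gg a b)^[n] c) δ) := by
    obtain ⟨n, z, hz, hw⟩ := h.ex c hc s hs
    refine ⟨n, fun hcon => ?_⟩
    have h1 := hcon hz
    exact hw _ (ball_subset_ball hδ0 (mem_pre.1 h1).2) (rat_gg h1 le_rfl)
  classical
  obtain ⟨n, hn, hmn⟩ : ∃ n : ℕ, (¬ ball c s ⊆ (pre a b)^[n] (ball ((gg a b)^[n] c) δ)) ∧
      ∀ m < n, ball c s ⊆ (pre a b)^[m] (ball ((gg a b)^[m] c) δ) :=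
    ⟨Nat.find hex, Nat.find_spec hex, fun m hm => not_not.1 (Nat.find_min hex hm)⟩
  have hnN : N < n := by
    by_contra hle
    apply hn
    intro z hz
    exact hs0' z (ball_subset_ball hss hz) n (Finset.mem_range.2 (by omega))
  obtain ⟨k, rfl⟩ : ∃ k, n = k + 1 := ⟨n - 1, by omega⟩
  refine ⟨k, by omega, hmn k (Nat.lt_succ_self k), ?_⟩
  obtain ⟨z, hz, hzn⟩ := Set.not_subset.1 hn
  refine ⟨z, hz, ?_⟩
  by_contra hlt
  push Not at hlt
  apply hzn
  have hzk := mem_pre.1 (hmn k (Nat.lt_succ_self k) hz)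
  have hb : b.eval ((gg a b)^[k] z) ≠ 0 := by
    refine hsub (Metric.mem_thickening_iff.2 ⟨(gg a b)^[k] c, hcJ k, ?_⟩)
    rw [dist_eq_norm]
    exact lt_of_lt_of_le hlt (min_le_left _ _)
  have hd : dist ((gg a b) ((gg a b)^[k] c)) ((gg a b) ((gg a b)^[k] z)) < δ := by
    refine hcont ?_ (hcJ k)
    rw [dist_comm, dist_eq_norm]
    exact lt_of_lt_of_le hlt (min_le_right _ _)
  refine mem_pre.2 ⟨fun i hi => ?_, ?_⟩
  · rcases Nat.lt_succ_iff_lt_or_eq.1 hi with h1 | rfl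
    · exact hzk.1 i h1
    · exact hb
  · rw [Function.iterate_succ_apply', Function.iterate_succ_apply', mem_ball, dist_comm]
    exact hd

end Pool.Agent.H64.BE
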