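import Pool.Agent.H64.BE.NGR

/-!
# BEAU, no gaps: periodic points in all small rings at the Julia critical points, with an absolute constant

PROOF. The critical points in `J` (roots of `ww a b`, not 0: a rational map of degree at least 2; see `cr_fin` in H18/UP/BAS) are finitely many. For each of them `ring_false` gives `r_c > 0`: for `0 < r ≤ r_c` there is `z ∈ J` with `r / 4 < ‖z - c‖ < r`. `r1` = the minimum (finite set). For `ρ ≤ r1` take `r = ρ / 4`: `ρ / 16 < ‖z - c‖ < ρ / 4`; `h.per z _ ε` with `ε` smaller than both distances: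
a periodic point `w ∈ J`, `gg^[p] w = w`; `w ∈ pre^[p] {w}` (`mem_pre`: `b ≠ 0` on `J`, `itJ`).
-/

set_option autoImplicit false

open Filter Topology Polynomial Metric Set

namespace Pool.Agent.H64.BE

open Pool.Agent.H44.Fatou (rat rat_continuous rat_coe rat_coe_of_ne pt crit_coe)
open Pool.Agent.H61.TT Pool.Agent.H57.CP Pool.Agent.H3.NC Pool.Agent.H18.UP

variable {d D : ℕ} {a b : Polynomial ℂ} {J : Set ℂ} {δ0 R0 : ℝ}

theorem rng (h : US0 d D a b J δ0 R0) (hPR : ∀ c ∈ J, (ww a b).eval c = 0 → PR (rat a b) (c : OnePoint ℂ)) :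
    ∃ r1 : ℝ, 0 < r1 ∧ ∀ c ∈ J, Cr a b c → ∀ ρ : ℝ, 0 < ρ → ρ ≤ r1 → ∃ w ∈ J,
      1 / 16 * ρ ≤ ‖w - c‖ ∧ ‖w - c‖ ≤ ρ / 4 ∧ ∃ p : ℕ, 0 < p ∧ w ∈ (pre a b)^[p] {w} := by
  have hfin : {c : ℂ | Cr a b c}.Finite := by
    have h1 := Pool.Agent.H32.BT.crit_finite h.ns.rt.cop (by rw [h.ns.rt.deg]; have := h.ns.rt.hd; omega)
    have h2 := h1.preimage (f := ((↑) : ℂ → OnePoint ℂ)) OnePoint.coe_injective.injOn
    exact h2.subset fun c hc =>
      Pool.Agent.H32.BT.crit_of_wr h.ns.rt.cop (by rw [h.ns.rt.deg]; have := h.ns.rt.hd; omega) hc.2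
  have hring : ∀ c ∈ {c : ℂ | Cr a b c}, ∀ᶠ r1 in 𝓝[>] (0 : ℝ), c ∈ J → ∀ r : ℝ, 0 < r → r ≤ r1 →
      ∃ z ∈ J, r / 4 < ‖z - c‖ ∧ ‖z - c‖ < r := by
    intro c hcr
    have hcr' : Cr a b c := hcr
    by_cases hc : c ∈ J
    · have h3 : ∃ r1 : ℝ, 0 < r1 ∧ ∀ r : ℝ, 0 < r → r ≤ r1 → ∃ z ∈ J, r / 4 < ‖z - c‖ ∧ ‖z - c‖ < r := by
        by_contra hcon
        refine ring_false h hc hcr'.2 (hPR c hc hcr'.2) fun r1 hr1 => ?_
        by_contra h4
        refine hcon ⟨r1, hr1, fun r hr hrr => ?_⟩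
        by_contra h5
        exact h4 ⟨r, hr, hrr, fun z hz hz1 => h5 ⟨z, hz, hz1⟩⟩
      obtain ⟨r1, hr1, h4⟩ := h3
      filter_upwards [Ioo_mem_nhdsGT hr1] with s hs _ r hr hrs
      exact h4 r hr (hrs.trans hs.2.le)
    · exact Filter.Eventually.of_forall fun r1 h1 => absurd h1 hc
  obtain ⟨r1, h1, hr1⟩ := (((Filter.eventually_all_finite hfin).2 hring).and self_mem_nhdsWithin).exists
  refine ⟨r1, hr1, fun c hc hcr ρ hρ hρr => ?_⟩
  obtain ⟨z, hz, hz1, hz2⟩ := h1 c hcr hc (ρ / 4) (by positivity) (by linarith)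
  obtain ⟨w, hw, hwz, p, hp, hpw⟩ := h.per z hz (min (‖z - c‖ - ρ / 16) (ρ / 4 - ‖z - c‖))
    (lt_min (by linarith) (by linarith))
  have e1 := lt_min_iff.1 hwz
  have e2 : ‖z - c‖ ≤ ‖w - c‖ + ‖w - z‖ := by
    have := norm_sub_le (w - c) (w - z)
    rwa [show w - c - (w - z) = z - c by ring] at this
  have e3 : ‖w - c‖ ≤ ‖w - z‖ + ‖z - c‖ := by
    have := norm_add_le (w - z) (z - c)
    rwa [show w - z + (z - c) = w - c by ring] at this
  refine ⟨w, hw, by linarith [e1.1], by linarith [e1.2], p, hp, ?_⟩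
  exact mem_pre.2 ⟨fun i _ => h.ns.Jn _ (itJ h.ns hw i), hpw⟩

end Pool.Agent.H64.BE
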