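import Pool.Agent.H18.UP.BAS
import Pool.Agent.H3.NC.Sph
import Pool.Agent.H44.RC.CCO

/-!
# BEAU, no gaps: critical times give zeros of the derivatives along the orbits near `c`

PROOF. `f = rat a b`, `D = {z | chord z (f^[k] c) < δ}` (open: `continuous_chord` or as `prc_op` in H3/NC/PRC; contains `f^[k] c`). `S` = image of `CT f (f c) (k - 1) δ` (a finite set, contained in `range (k - 1)`; `Set.Finite.toFinset`, `Set.ncard_eq_toFinset_card`) under `j ↦ j + 1` (injective: `Finset.card_image_of_injective`).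
Let `j ∈ CT`: `j < k - 1`, `c'` critical, `c' ∈ W = Wk f (f c) (k - 1) δ j`. `f^[k-1] (f c) = f^[k] c`, `f^[j] (f c) = f^[j+1] c`, `k - 1 - j = k - (j + 1)`: `W = CC f (k - (j+1)) D (f^[j+1] c)` (H44/RC), open (`cc_open`), preconnected, contains `f^[j+1] c` (`cc_mem`; `chord x x = 0 < δ`).
`cc_onto` (`n = j + 1`, `D := W`, `y = c`): `c' = f^[j+1] z` with `z ∈ CC f (j+1) W c`. This set is preconnected, contains `c`, `f^[k]` maps it into `D` (`cc_sub` twice): it is in `Wk f c k δ 0` (`cc_max`). By `hsub` `z = c + r u`, `‖u‖ < ρ`. By `hpre` and `mem_pre` (H3/NC/BRN): `b ≠ 0` along the orbit up to the time `k - 1`, so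
`f^[j+1] z = gg^[j+1] (c + r u)` (as `g_rat`, H18/UP/BAS; `rat_it` or `fin_orba`), `b ≠ 0` there (`j + 1 < k`), `ww = 0` there (`crit_coe`, compare `crit_iff` in BAS), so `dg = 0`. (`rat a b` is continuous and open: `rat_continuous`, `rat_open` or the lemma used in H44/RC for `IsOpenMap (rat ..)`, `hR.cop`, degree `≥ 2`.)
-/

set_option autoImplicit false

open Filter Topology Polynomial Metric Set

namespace Pool.Agent.H64.BE

open Pool.Agent.H44.Fatou (rat rat_continuous rat_coe rat_coe_of_ne pt crit_coe)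
open Pool.Agent.H32.BT (IsCrit)
open Pool.Agent.H35.EX Pool.Agent.H44.RC
open Pool.Agent.H61.TT Pool.Agent.H57.CP Pool.Agent.H3.NC

variable {d : ℕ} {a b : Polynomial ℂ}

private theorem ngt_op (x : OnePoint ℂ) (δ : ℝ) :
    IsOpen {z | Pool.Agent.H35.EX.chord z x < δ} := by
  have h1 : {z | Pool.Agent.H35.EX.chord z x < δ} = {z | Pool.Agent.H35.EX.chord x z < δ} := by
    ext z
    rw [mem_ofPred_eq, mem_ofPred_eq, Pool.Agent.H35.EX.chord_comm]
  rw [h1]
  exact ch_ball _ _

theorem ct_zero (hR : RatD d a b) {c : ℂ} {k : ℕ} (hk : 0 < k) {δ r ρ : ℝ} (hδ : 0 < δ)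
    (hpre : ∀ u ∈ ball (0 : ℂ) ρ, c + r * u ∈ (pre a b)^[k] univ)
    (hsub : Wk (rat a b) (c : OnePoint ℂ) k δ 0 ⊆ (fun u : ℂ => ((c + r * u : ℂ) : OnePoint ℂ)) '' ball 0 ρ) :
    ∃ S : Finset ℕ, S ⊆ Finset.range k ∧ S.card = (CT (rat a b) (rat a b (c : OnePoint ℂ)) (k - 1) δ).ncard ∧
      ∀ i ∈ S, ∃ u ∈ ball (0 : ℂ) ρ, dg a b ((gg a b)^[i] (c + r * u)) = 0 := by
  have hd : 1 ≤ max a.natDegree b.natDegree := by
    rw [hR.deg]
    have := hR.hd
    omega
  have hf : Continuous (rat a b) := rat_continuous hR.cop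
  have ho : IsOpenMap (rat a b) := Pool.Agent.H32.BT.rat_open hR.cop hd
  have hfin : (CT (rat a b) (rat a b (c : OnePoint ℂ)) (k - 1) δ).Finite :=
    (finite_lt_nat (k - 1)).subset fun _ h => h.1
  refine ⟨hfin.toFinset.image (fun j => j + 1), ?_, ?_, ?_⟩
  · intro i hi
    obtain ⟨j, hj, rfl⟩ := Finset.mem_image.1 hi
    have h1 := ((hfin.mem_toFinset).1 hj).1
    rw [Finset.mem_range]
    omega
  · rw [Finset.card_image_of_injective _ (fun x y h => by simpa using h),
      Set.ncard_eq_toFinset_card _ hfin]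
  · intro i hi
    obtain ⟨j, hj, rfl⟩ := Finset.mem_image.1 hi
    obtain ⟨hj1, c', hc', hcW⟩ := (hfin.mem_toFinset).1 hj
    have hk1 : (rat a b)^[k - 1] (rat a b (c : OnePoint ℂ)) = (rat a b)^[k] (c : OnePoint ℂ) := by
      rw [← Function.iterate_succ_apply]
      congr 1
      omega
    set D : Set (OnePoint ℂ) := {z | Pool.Agent.H35.EX.chord z ((rat a b)^[k] (c : OnePoint ℂ)) < δ} with hDdef
    have hDo : IsOpen D := ngt_op _ _
    have hW : Wk (rat a b) (rat a b (c : OnePoint ℂ)) (k - 1) δ j =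
        CC (rat a b) (k - (j + 1)) D ((rat a b)^[j + 1] (c : OnePoint ℂ)) := by
      have e1 : Wk (rat a b) (rat a b (c : OnePoint ℂ)) (k - 1) δ j =
          CC (rat a b) (k - 1 - j) {z | Pool.Agent.H35.EX.chord z
            ((rat a b)^[k - 1] (rat a b (c : OnePoint ℂ))) < δ}
            ((rat a b)^[j] (rat a b (c : OnePoint ℂ))) := rfl
      rw [e1, hk1, ← Function.iterate_succ_apply]
      congr 1
      omega
    rw [hW] at hcW
    have hmem : (rat a b)^[j + 1] (c : OnePoint ℂ) ∈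
        CC (rat a b) (k - (j + 1)) D ((rat a b)^[j + 1] (c : OnePoint ℂ)) := by
      apply cc_mem
      rw [← Function.iterate_add_apply]
      have e2 : k - (j + 1) + (j + 1) = k := by omega
      rw [e2, hDdef]
      show Pool.Agent.H35.EX.chord _ _ < δ
      rw [Pool.Agent.H44.RR.chord_zero]
      exact hδ
    have hWo : IsOpen (CC (rat a b) (k - (j + 1)) D ((rat a b)^[j + 1] (c : OnePoint ℂ))) :=
      cc_open hf _ hDo _
    have honto := cc_onto hf ho (n := j + 1) hWo (cc_pre _ _ _) (y := (c : OnePoint ℂ)) hmem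
    rw [← honto] at hcW
    obtain ⟨z, hz, hzc⟩ := hcW
    have hsub2 : CC (rat a b) (j + 1) (CC (rat a b) (k - (j + 1)) D ((rat a b)^[j + 1] (c : OnePoint ℂ)))
        (c : OnePoint ℂ) ⊆ Wk (rat a b) (c : OnePoint ℂ) k δ 0 := by
      have e3 : Wk (rat a b) (c : OnePoint ℂ) k δ 0 = CC (rat a b) k D (c : OnePoint ℂ) := rfl
      rw [e3]
      apply cc_max (cc_pre _ _ _) (cc_mem hmem)
      intro y hy
      have h1 := cc_sub (cc_sub hy)
      rw [← Function.iterate_add_apply] at h1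
      have e2 : k - (j + 1) + (j + 1) = k := by omega
      rwa [e2] at h1
    obtain ⟨u, hu, huz⟩ := hsub (hsub2 hz)
    refine ⟨u, hu, ?_⟩
    have hb := (mem_pre.1 (hpre u hu)).1
    have h1 : (rat a b)^[j + 1] ((c + r * u : ℂ) : OnePoint ℂ) = ((gg a b)^[j + 1] (c + r * u) : ℂ) :=
      rat_it hb (j + 1) (by omega)
    have h2 : ((c + r * u : ℂ) : OnePoint ℂ) = z := huz
    rw [h2, hzc] at h1
    rw [h1] at hc'
    have h3 : (ww a b).eval ((gg a b)^[j + 1] (c + r * u)) = 0 := crit_coe hc'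
    unfold dg
    rw [h3, zero_div]

end Pool.Agent.H64.BE
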