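import Pool.Agent.H64.BE.NGZ
import Pool.Agent.H64.BE.NGT
import Pool.Agent.H56.RD.MTL

/-!
# BEAU, no gaps: at a persistently recurrent critical point rescaled iterates have no nonconstant limit

PROOF. Write `g n u = gg^[k n] (c + r n u)`. `g n` is differentiable on `ball 0 ρ` (`g_diff`, H18/UP/BAS) with derivative `r n * tD (k n) (c + r n u) = r n * ∏_(i < k n) F n i u`, `F n i u = dg (gg^[i] (c + r n u))`, differentiable on the ball (`b ≠ 0` there, `mem_pre`; `gg^[i]` differentiable by `g_diff` for `i ≤ k n`). Continuous convergence `hG` gives uniform convergence on `closedBall 0 ρ'`, `ρ' < ρ` (compactness, `G` continuous on the ball), `G` is differentiable on the ball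
(`TendstoLocallyUniformlyOn.differentiableOn`), and the derivatives converge locally uniformly (`TendstoLocallyUniformlyOn.deriv`).
`G - G 0` is not identically 0 near 0 (identity theorem on the ball, `hne`): there is `ρ1` with `0 < ρ1`, `12 ρ1 ≤ ρ`, `G u ≠ G 0` for `0 < ‖u‖ ≤ ρ1` (`AnalyticAt.eventually_eq_zero_or_eventually_ne_zero`), and `u*` with `‖u*‖ ≤ ρ1`, `deriv G u* ≠ 0` (otherwise `G` is constant on `ball 0 ρ1`). `ε` = minimum of `‖G u - G 0‖` on the sphere `‖u‖ = ρ1`, positive. `ρ' = 5 ρ1`.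
Eventually `‖g n u - G u‖ < ε / 8` on `closedBall 0 ρ1`, so `‖g n u - g n 0‖ ≥ ε / 2` on the sphere. `δ > 0` such that `chord z w < δ`, `w` finite, `‖w‖ ≤ R` implies `z` finite and `‖z - w‖ < ε / 2` (chordal distance: `chord ∞ w ≥ 1 / √(1 + R ^ 2)`; for finite `z`: if `‖z - w‖ ≥ ε / 2` then `chord` is at least a constant `> 0`, see `io_big`, `io_near` in H44/RC/IOC or compute). Note `‖gg^[k n] c‖ ≤ R` by `hpre` at `u = 0`.
`Wk f c (k n) δ 0` is contained in `A = {c + r n u : ‖u‖ < ρ1}`: it is preconnected, contains `c`, and does not meet `frontier A ⊆ {c + r n u : ‖u‖ = ρ1}` (`A` is open in the sphere, its closure is the image of the closed ball, compact) because there `f^[k n] = g n u` (finite, `g_rat`) is not in the disc. (`IsPreconnected.subset_of_disjoint..` / write `Wk ⊆ A ∪ (closure A)ᶜ`.)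
`ct_zero` with `ρ := ρ1`, `hpre` weakened (`pre_mono`): the set `S`, zeros `u i` of `F n i`, `i ∈ S`. `many_zeros` with `Q u = r n * ∏_(i ∈ range (k n) \ S) F n i u`: `Q u * ∏_S F = deriv (g n) u` (`Finset.prod_sdiff`), so `‖deriv (g n) u*‖ ≤ B / 2 ^ #CT`, where `B` bounds `‖deriv (g n)‖` on the sphere of radius `ρ'` for all large `n`.
`PR`: for `D` with `B / 2 ^ D < ‖deriv G u*‖ / 2` only finitely many `m` have `#CT f (f c) m δ ≤ D`; as `k n - 1 → ∞`, eventually `#CT > D`: contradiction with `deriv (g n) u* → deriv G u*`.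
-/

set_option autoImplicit false

open Filter Topology Polynomial Metric Set

namespace Pool.Agent.H64.BE

open Pool.Agent.H44.Fatou (rat rat_continuous rat_coe rat_coe_of_ne pt crit_coe)
open Pool.Agent.H32.BT (IsCrit)
open Pool.Agent.H35.EX Pool.Agent.H44.RC
open Pool.Agent.H61.TT Pool.Agent.H57.CP Pool.Agent.H3.NC Pool.Agent.H18.UP
open Pool.Agent.H56.RD (JC jc_diff jc_deriv jc_unif jc_pt)

variable {d : ℕ} {a b : Polynomial ℂ}

/-- points chordally close to a bounded finite point -/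
theorem chord_cl {R ε : ℝ} (hε : 0 < ε) : ∃ δ : ℝ, 0 < δ ∧ ∀ (z : OnePoint ℂ) (w : ℂ), ‖w‖ ≤ R → chord z (w : OnePoint ℂ) < δ →
    ∃ z' : ℂ, z = (z' : OnePoint ℂ) ∧ ‖z' - w‖ < ε := by
  obtain ⟨m, hm⟩ : ∃ m, m = √(1 + |R| ^ 2) := ⟨_, rfl⟩
  have hm0 : 0 < m := by rw [hm]; positivity
  refine ⟨ε / ((1 + |R| + ε) * m), by positivity, fun z w hw hc => ?_⟩
  have hwR : ‖w‖ ≤ |R| := hw.trans (le_abs_self R)
  have hwm : √(1 + ‖w‖ ^ 2) ≤ m := by
    rw [hm]
    refine Real.sqrt_le_sqrt ?_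
    have := pow_le_pow_left₀ (norm_nonneg w) hwR 2
    linarith
  have hw0 : 0 < √(1 + ‖w‖ ^ 2) := by positivity
  induction z using OnePoint.rec with
  | infty =>
    exfalso
    have h1 : chord OnePoint.infty (w : OnePoint ℂ) = 1 / √(1 + ‖w‖ ^ 2) := rfl
    rw [h1] at hc
    have h2 : 1 / m ≤ 1 / √(1 + ‖w‖ ^ 2) := one_div_le_one_div_of_le hw0 hwm
    have h3 : ε / ((1 + |R| + ε) * m) ≤ 1 / m := by
      rw [div_le_div_iff₀ (by positivity) hm0]
      have : 0 ≤ (1 + |R|) * m := by positivity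
      nlinarith
    linarith
  | coe z' =>
    refine ⟨z', rfl, ?_⟩
    by_contra hcon
    push Not at hcon
    have h1 : chord (z' : OnePoint ℂ) (w : OnePoint ℂ) = ‖z' - w‖ / (√(1 + ‖z'‖ ^ 2) * √(1 + ‖w‖ ^ 2)) := rfl
    rw [h1] at hc
    have h2 : √(1 + ‖z'‖ ^ 2) ≤ 1 + |R| + ‖z' - w‖ := by
      have h3 : ‖z'‖ ≤ ‖z' - w‖ + |R| := by
        have := norm_add_le (z' - w) w
        rw [sub_add_cancel] at this
        linarith
      rw [Real.sqrt_le_left (by positivity)]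
      nlinarith [norm_nonneg z', norm_nonneg (z' - w), abs_nonneg R]
    have h4 : ε / ((1 + |R| + ε) * m) ≤ ‖z' - w‖ / (√(1 + ‖z'‖ ^ 2) * √(1 + ‖w‖ ^ 2)) := by
      have h5 : √(1 + ‖z'‖ ^ 2) * √(1 + ‖w‖ ^ 2) ≤ (1 + |R| + ‖z' - w‖) * m :=
        mul_le_mul h2 hwm hw0.le (by positivity)
      have h6 : 0 < √(1 + ‖z'‖ ^ 2) * √(1 + ‖w‖ ^ 2) := by positivity
      calc ε / ((1 + |R| + ε) * m) ≤ ‖z' - w‖ / ((1 + |R| + ‖z' - w‖) * m) := by
            rw [div_le_div_iff₀ (by positivity) (by positivity)]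
            have : 0 ≤ (‖z' - w‖ - ε) * ((1 + |R|) * m) := mul_nonneg (by linarith) (by positivity)
            nlinarith
        _ ≤ _ := div_le_div_of_nonneg_left (norm_nonneg _) h6 h5
    linarith

/-- the component of the preimage of a small disc is contained in a disc -/
theorem wk_sub {c : ℂ} {k : ℕ} {δ r ρ1 ε : ℝ} (hr : 0 < r) (hρ1 : 0 < ρ1)
    (hpre : ∀ u ∈ closedBall (0 : ℂ) ρ1, c + r * u ∈ (pre a b)^[k] univ)
    (hdel : ∀ z : OnePoint ℂ, chord z (((gg a b)^[k] c : ℂ) : OnePoint ℂ) < δ →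
      ∃ z' : ℂ, z = (z' : OnePoint ℂ) ∧ ‖z' - (gg a b)^[k] c‖ < ε)
    (hsph : ∀ u : ℂ, ‖u‖ = ρ1 → ε ≤ ‖(gg a b)^[k] (c + r * u) - (gg a b)^[k] c‖) :
    Wk (rat a b) (c : OnePoint ℂ) k δ 0 ⊆ (fun u : ℂ => ((c + r * u : ℂ) : OnePoint ℂ)) '' ball 0 ρ1 := by
  have hit : ∀ u ∈ closedBall (0 : ℂ) ρ1, (rat a b)^[k] ((c + r * u : ℂ) : OnePoint ℂ) =
      (((gg a b)^[k] (c + r * u) : ℂ) : OnePoint ℂ) := fun u hu => rat_it (mem_pre.1 (hpre u hu)).1 k le_rfl
  have hc0 : (rat a b)^[k] (c : OnePoint ℂ) = (((gg a b)^[k] c : ℂ) : OnePoint ℂ) := by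
    have := hit 0 (mem_closedBall_self hρ1.le)
    simpa using this
  have hmap : IsOpenMap (fun u : ℂ => c + r * u) := by
    have h1 : (fun u : ℂ => c + r * u) = (Homeomorph.addLeft c) ∘ (Homeomorph.mulLeft₀ (r : ℂ) (by exact_mod_cast hr.ne')) := by
      funext u
      rfl
    rw [h1]
    exact (Homeomorph.addLeft c).isOpenMap.comp (Homeomorph.isOpenMap _)
  have hA : IsOpen ((fun u : ℂ => ((c + r * u : ℂ) : OnePoint ℂ)) '' ball 0 ρ1) := by
    have h1 : (fun u : ℂ => ((c + r * u : ℂ) : OnePoint ℂ)) = ((↑) : ℂ → OnePoint ℂ) ∘ (fun u : ℂ => c + r * u) := rfl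
    rw [h1, image_comp]
    exact OnePoint.isOpenEmbedding_coe.isOpenMap _ (hmap _ isOpen_ball)
  have hcont : Continuous (fun u : ℂ => ((c + r * u : ℂ) : OnePoint ℂ)) :=
    OnePoint.continuous_coe.comp (continuous_const.add (continuous_const.mul continuous_id))
  have hB : IsOpen ((fun u : ℂ => ((c + r * u : ℂ) : OnePoint ℂ)) '' closedBall 0 ρ1)ᶜ :=
    ((isCompact_closedBall (0 : ℂ) ρ1).image hcont).isClosed.isOpen_compl
  intro x hx
  have hcW : (c : OnePoint ℂ) ∈ Wk (rat a b) (c : OnePoint ℂ) k δ 0 := by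
    have h1 : (Wk (rat a b) (c : OnePoint ℂ) k δ 0).Nonempty := ⟨x, hx⟩
    unfold Wk at h1 ⊢
    exact mem_connectedComponentIn (connectedComponentIn_nonempty_iff.1 h1)
  have hsub : Wk (rat a b) (c : OnePoint ℂ) k δ 0 ⊆ (fun u : ℂ => ((c + r * u : ℂ) : OnePoint ℂ)) '' ball 0 ρ1 ∪
      ((fun u : ℂ => ((c + r * u : ℂ) : OnePoint ℂ)) '' closedBall 0 ρ1)ᶜ := by
    intro y hy
    by_cases h1 : y ∈ (fun u : ℂ => ((c + r * u : ℂ) : OnePoint ℂ)) '' closedBall 0 ρ1
    · left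
      obtain ⟨u, hu, rfl⟩ := h1
      refine ⟨u, ?_, rfl⟩
      rw [mem_closedBall, dist_zero_right] at hu
      rw [mem_ball, dist_zero_right]
      refine lt_of_le_of_ne hu fun h2 => ?_
      have h3' : ((c + r * u : ℂ) : OnePoint ℂ) ∈ {z | chord ((rat a b)^[k - 0] z) ((rat a b)^[k] (c : OnePoint ℂ)) < δ} :=
        connectedComponentIn_subset _ _ hy
      have h3 : chord ((rat a b)^[k - 0] ((c + r * u : ℂ) : OnePoint ℂ)) ((rat a b)^[k] (c : OnePoint ℂ)) < δ := h3'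
      rw [Nat.sub_zero, hit u (by rw [mem_closedBall, dist_zero_right]; exact hu), hc0] at h3
      obtain ⟨z', hz', h4⟩ := hdel _ h3
      have h5 := OnePoint.coe_injective hz'
      rw [← h5] at h4
      linarith [hsph u h2]
    · right
      exact h1
  have hdis : Disjoint ((fun u : ℂ => ((c + r * u : ℂ) : OnePoint ℂ)) '' ball 0 ρ1)
      ((fun u : ℂ => ((c + r * u : ℂ) : OnePoint ℂ)) '' closedBall 0 ρ1)ᶜ := by
    rw [Set.disjoint_left]
    rintro _ ⟨u, hu, rfl⟩ h1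
    exact h1 ⟨u, ball_subset_closedBall hu, rfl⟩
  have h1 := (isPreconnected_connectedComponentIn (x := (rat a b)^[0] (c : OnePoint ℂ))
    (F := {z | chord ((rat a b)^[k - 0] z) ((rat a b)^[k] (c : OnePoint ℂ)) < δ})).subset_left_of_subset_union hA hB hdis hsub
    ⟨(c : OnePoint ℂ), hcW, 0, mem_ball_self hρ1, by simp⟩
  exact h1 hx

theorem no_lim (hR : RatD d a b) {c : ℂ} (hPR : PR (rat a b) (c : OnePoint ℂ)) {k : ℕ → ℕ} (hk : Tendsto k atTop atTop)
    {r : ℕ → ℝ} (hr : ∀ n, 0 < r n) {ρ R : ℝ} (hρ : 0 < ρ)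
    (hpre : ∀ n, ∀ u ∈ ball (0 : ℂ) ρ, c + r n * u ∈ (pre a b)^[k n] (closedBall 0 R)) {G : ℂ → ℂ}
    (hG : ∀ z ∈ ball (0 : ℂ) ρ, Tendsto (fun w : ℕ × ℂ => (gg a b)^[k w.1] (c + r w.1 * w.2)) (atTop ×ˢ 𝓝 z) (𝓝 (G z)))
    (hne : ∃ u ∈ ball (0 : ℂ) ρ, G u ≠ G 0) : False := by
  obtain ⟨g, hg⟩ : ∃ g : ℕ → ℂ → ℂ, g = fun n u => (gg a b)^[k n] (c + r n * u) := ⟨_, rfl⟩
  have hJ : JC g G (ball 0 ρ) := by
    rw [hg]
    exact hG
  have hmv : ∀ n, ∀ u : ℂ, HasDerivAt (fun u : ℂ => c + r n * u) (r n : ℂ) u := by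
    intro n u
    simpa using ((hasDerivAt_id u).const_mul (r n : ℂ)).const_add c
  have hder : ∀ n, ∀ u ∈ ball (0 : ℂ) ρ, HasDerivAt (g n) (tD a b (k n) (c + r n * u) * r n) u := by
    intro n u hu
    rw [hg]
    exact (g_diff (hpre n u hu)).comp u (hmv n u)
  have hdiff : ∀ n, DifferentiableOn ℂ (g n) (ball 0 ρ) := fun n u hu =>
    (hder n u hu).differentiableAt.differentiableWithinAt
  have hGd : DifferentiableOn ℂ G (ball 0 ρ) := jc_diff isOpen_ball hdiff hJ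
  have hJd := jc_deriv isOpen_ball hdiff hJ
  have h0ρ : (0 : ℂ) ∈ ball (0 : ℂ) ρ := mem_ball_self hρ
  -- the point 0 is isolated in its fibre
  have hiso : ∀ᶠ u in 𝓝[≠] (0 : ℂ), G u - G 0 ≠ 0 := by
    have hG0 : AnalyticAt ℂ (fun u => G u - G 0) 0 :=
      (hGd.analyticAt (isOpen_ball.mem_nhds h0ρ)).sub analyticAt_const
    rcases hG0.eventually_eq_zero_or_eventually_ne_zero with h1 | h1
    · exfalso
      have h2 : AnalyticOnNhd ℂ (fun u => G u - G 0) (ball 0 ρ) :=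
        (hGd.sub (differentiableOn_const _)).analyticOnNhd isOpen_ball
      have h3 := h2.eqOn_zero_of_preconnected_of_eventuallyEq_zero (convex_ball (0 : ℂ) ρ).isPreconnected h0ρ h1
      obtain ⟨u, hu, hn⟩ := hne
      exact hn (sub_eq_zero.1 (h3 hu))
    · exact h1
  rw [eventually_nhdsWithin_iff, Metric.eventually_nhds_iff] at hiso
  obtain ⟨ρ2, hρ2, hiso⟩ := hiso
  obtain ⟨ρ1, hρ1d⟩ : ∃ ρ1 : ℝ, ρ1 = min (ρ2 / 2) (ρ / 12) := ⟨_, rfl⟩
  have hρ1 : 0 < ρ1 := by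
    rw [hρ1d]
    exact lt_min (by positivity) (by positivity)
  have hρ1a : ρ1 < ρ2 := by
    have : ρ1 ≤ ρ2 / 2 := hρ1d ▸ min_le_left _ _
    linarith
  have hρ1b : 12 * ρ1 ≤ ρ := by
    have : ρ1 ≤ ρ / 12 := hρ1d ▸ min_le_right _ _
    linarith
  have hGne : ∀ u : ℂ, ‖u‖ ≤ ρ1 → u ≠ 0 → G u ≠ G 0 := by
    intro u hu hu0 h1
    refine hiso (by rw [dist_zero_right]; linarith) hu0 ?_
    rw [h1, sub_self]
  have hsub1 : closedBall (0 : ℂ) ρ1 ⊆ ball 0 ρ := closedBall_subset_ball (by linarith)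
  have hsub5 : closedBall (0 : ℂ) (5 * ρ1) ⊆ ball 0 ρ := closedBall_subset_ball (by linarith)
  -- a point with nonzero derivative
  obtain ⟨us, hus, hdus⟩ : ∃ us ∈ ball (0 : ℂ) ρ1, deriv G us ≠ 0 := by
    by_contra hcon
    push Not at hcon
    have h1 : ((ρ1 / 2 : ℝ) : ℂ) ∈ ball (0 : ℂ) ρ1 := by
      rw [mem_ball, dist_zero_right, Complex.norm_real, Real.norm_eq_abs, abs_of_pos (by positivity)]
      linarith
    have h2 := isOpen_ball.is_const_of_deriv_eq_zero (convex_ball (0 : ℂ) ρ1).isPreconnected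
      (hGd.mono (ball_subset_closedBall.trans hsub1)) hcon h1 (mem_ball_self hρ1)
    refine hGne _ (by rw [mem_ball, dist_zero_right] at h1; exact h1.le) ?_ h2
    exact_mod_cast (by positivity : (ρ1 / 2 : ℝ) ≠ 0)
  -- the minimum on the sphere
  obtain ⟨ε, hε, hεm⟩ : ∃ ε : ℝ, 0 < ε ∧ ∀ u : ℂ, ‖u‖ = ρ1 → ε ≤ ‖G u - G 0‖ := by
    have h1 : (sphere (0 : ℂ) ρ1).Nonempty := ⟨(ρ1 : ℂ), by
      rw [mem_sphere, dist_zero_right, Complex.norm_real, Real.norm_eq_abs, abs_of_pos hρ1]⟩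
    have h2 : ContinuousOn (fun u => ‖G u - G 0‖) (sphere (0 : ℂ) ρ1) :=
      ((hGd.continuousOn.mono (sphere_subset_closedBall.trans hsub1)).sub continuousOn_const).norm
    obtain ⟨u0, hu0, hmin⟩ := (isCompact_sphere (0 : ℂ) ρ1).exists_isMinOn h1 h2
    rw [mem_sphere, dist_zero_right] at hu0
    refine ⟨‖G u0 - G 0‖, ?_, fun u hu => ?_⟩
    · rw [norm_pos_iff, sub_ne_zero]
      refine hGne u0 hu0.le ?_
      intro h3
      rw [h3, norm_zero] at hu0
      exact hρ1.ne hu0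
    · exact hmin (by rw [mem_sphere, dist_zero_right]; exact hu)
  obtain ⟨δ, hδ, hδc⟩ := chord_cl (R := R) (ε := ε / 2) (by positivity)
  -- bounds
  have hu1 := jc_unif isOpen_ball hJ (isCompact_closedBall (0 : ℂ) ρ1) hsub1 (ε := ε / 4) (by positivity)
  have hu5 := jc_unif isOpen_ball hJd (isCompact_closedBall (0 : ℂ) (5 * ρ1)) hsub5 (ε := 1) one_pos
  obtain ⟨B0, hB0⟩ := (isCompact_closedBall (0 : ℂ) (5 * ρ1)).exists_bound_of_continuousOn
    (((hGd.deriv isOpen_ball).continuousOn).mono hsub5)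
  obtain ⟨η, hη⟩ : ∃ η : ℝ, η = ‖deriv G us‖ := ⟨_, rfl⟩
  have hη0 : 0 < η := by
    rw [hη]
    exact norm_pos_iff.2 hdus
  have hB00 : 0 ≤ B0 := (norm_nonneg _).trans (hB0 0 (mem_closedBall_self (by positivity)))
  obtain ⟨N, hN⟩ := exists_pow_lt_of_lt_one (show (0 : ℝ) < η / (2 * (B0 + 1)) by positivity)
    (show (1 / 2 : ℝ) < 1 by norm_num)
  have hPRf := hPR δ hδ N
  obtain ⟨M, hM⟩ := hPRf.bddAbove
  have hlim : ∀ᶠ n in atTop, ‖deriv (g n) us - deriv G us‖ < η / 2 := by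
    have h1 := jc_pt hJd (hsub1 (ball_subset_closedBall hus))
    have h2 := (Metric.tendsto_nhds.1 h1) (η / 2) (by positivity)
    filter_upwards [h2] with n hn
    rwa [dist_eq_norm] at hn
  obtain ⟨n, h1, h5, hkn, hl⟩ := (hu1.and (hu5.and ((hk.eventually_ge_atTop (M + 2)).and hlim))).exists
  have hg0 : g n 0 = (gg a b)^[k n] c := by
    rw [hg]
    simp
  have hkpos : 0 < k n := by omega
  have hR0 : ‖(gg a b)^[k n] c‖ ≤ R := by
    have h2 := (mem_pre.1 (hpre n 0 h0ρ)).2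
    rw [mem_closedBall, dist_zero_right, mul_zero, add_zero] at h2
    exact h2
  have hW : Wk (rat a b) (c : OnePoint ℂ) (k n) δ 0 ⊆
      (fun u : ℂ => ((c + r n * u : ℂ) : OnePoint ℂ)) '' ball 0 ρ1 := by
    refine wk_sub (ε := ε / 2) (hr n) hρ1 (fun u hu => pre_mono (subset_univ _) (hpre n u (hsub1 hu)))
      (fun z hz => hδc z _ hR0 hz) fun u hu => ?_
    have h2 := hεm u hu
    have h3 := h1 u (by rw [mem_closedBall, dist_zero_right]; exact hu.le)
    have h4 := h1 0 (mem_closedBall_self hρ1.le)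
    have h6 : g n u = (gg a b)^[k n] (c + r n * u) := by rw [hg]
    rw [← h6, ← hg0]
    have h7 : G u - G 0 = (g n u - g n 0) - (g n u - G u) + (g n 0 - G 0) := by ring
    have h8 : ‖G u - G 0‖ ≤ ‖g n u - g n 0‖ + ‖g n u - G u‖ + ‖g n 0 - G 0‖ := by
      rw [h7]
      exact (norm_add_le _ _).trans (add_le_add (norm_sub_le _ _) le_rfl)
    linarith
  obtain ⟨S, hS, hSc, hSz⟩ := ct_zero hR hkpos hδ
    (fun u hu => pre_mono (subset_univ _) (hpre n u (hsub1 (ball_subset_closedBall hu)))) hW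
  have hbig : N < S.card := by
    rw [hSc]
    by_contra hcon
    push Not at hcon
    have h2 := hM (show k n - 1 ∈ {m | (CT (rat a b) (rat a b (c : OnePoint ℂ)) m δ).ncard ≤ N} from hcon)
    omega
  choose! u hu hz using hSz
  have hFd : ∀ i ∈ Finset.range (k n), DifferentiableOn ℂ (fun w => dg a b ((gg a b)^[i] (c + r n * w))) (ball 0 ρ) := by
    intro i hi w hw
    rw [Finset.mem_range] at hi
    have h2 := mem_pre.1 (hpre n w hw)
    have h3 : c + r n * w ∈ (pre a b)^[i] univ := mem_pre.2 ⟨fun j hj => h2.1 j (hj.trans hi), mem_univ _⟩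
    have h4 := ((g_diff h3).comp w (hmv n w)).differentiableAt
    have h6 : DifferentiableAt ℂ (dg a b) ((gg a b)^[i] (c + r n * w)) := by
      have h7 : dg a b = fun z => (ww a b).eval z / b.eval z ^ 2 := rfl
      rw [h7]
      exact ((ww a b).differentiable _).div ((b.differentiable _).pow 2) (pow_ne_zero 2 (h2.1 i hi))
    have h8 := DifferentiableAt.comp w h6 h4
    exact h8.differentiableWithinAt
  have hprod : ∀ w ∈ ball (0 : ℂ) ρ, (r n : ℂ) * (∏ i ∈ Finset.range (k n) \ S, dg a b ((gg a b)^[i] (c + r n * w))) *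
      ∏ i ∈ S, dg a b ((gg a b)^[i] (c + r n * w)) = deriv (g n) w := by
    intro w hw
    rw [(hder n w hw).deriv, mul_assoc, Finset.prod_sdiff hS, mul_comm]
    rfl
  have hfin := many_zeros S (F := fun i w => dg a b ((gg a b)^[i] (c + r n * w)))
    (Q := fun w => (r n : ℂ) * ∏ i ∈ Finset.range (k n) \ S, dg a b ((gg a b)^[i] (c + r n * w))) (u := u)
    (ρ := ρ) (ρ' := 5 * ρ1) (ρ1 := ρ1) (B := B0 + 1) hρ1 le_rfl (by linarith) (fun i hi => hFd i (hS hi)) ?_
    (fun i hi => by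
      have := hu i hi
      rw [mem_ball, dist_zero_right] at this
      exact this.le) (fun i hi => hz i hi) ?_ (w := us) (by
      rw [mem_ball, dist_zero_right] at hus
      exact hus.le)
  · rw [hprod us (hsub1 (ball_subset_closedBall hus))] at hfin
    have h2 : η / 2 < ‖deriv (g n) us‖ := by
      have h3 : ‖deriv G us‖ ≤ ‖deriv (g n) us‖ + ‖deriv (g n) us - deriv G us‖ := by
        have h4 : deriv G us = deriv (g n) us - (deriv (g n) us - deriv G us) := by ring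
        calc ‖deriv G us‖ = ‖deriv (g n) us - (deriv (g n) us - deriv G us)‖ := by rw [← h4]
          _ ≤ _ := norm_sub_le _ _
      rw [← hη] at h3
      linarith
    have h3 : (B0 + 1) / 2 ^ S.card < η / 2 := by
      have h4 : (1 / 2 : ℝ) ^ S.card ≤ (1 / 2 : ℝ) ^ N :=
        pow_le_pow_of_le_one (by norm_num) (by norm_num) hbig.le
      have h6 : (B0 + 1) / 2 ^ S.card = (B0 + 1) * (1 / 2 : ℝ) ^ S.card := by
        rw [one_div, inv_pow, div_eq_mul_inv]
      rw [h6]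
      calc (B0 + 1) * (1 / 2 : ℝ) ^ S.card ≤ (B0 + 1) * (1 / 2 : ℝ) ^ N :=
            mul_le_mul_of_nonneg_left h4 (by positivity)
        _ < (B0 + 1) * (η / (2 * (B0 + 1))) := mul_lt_mul_of_pos_left hN (by positivity)
        _ = η / 2 := by field_simp
    linarith
  · exact (differentiableOn_const _).mul (DifferentiableOn.fun_finset_prod fun i hi => hFd i (Finset.mem_sdiff.1 hi).1)
  · intro w hw
    have hw5 : w ∈ closedBall (0 : ℂ) (5 * ρ1) := by
      rw [mem_closedBall, dist_zero_right]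
      exact hw.le
    show ‖(r n : ℂ) * (∏ i ∈ Finset.range (k n) \ S, dg a b ((gg a b)^[i] (c + r n * w))) *
      ∏ i ∈ S, dg a b ((gg a b)^[i] (c + r n * w))‖ ≤ B0 + 1
    rw [hprod w (hsub5 hw5)]
    have h2 := h5 w hw5
    have h3 := hB0 w hw5
    have h4 : deriv (g n) w = (deriv (g n) w - deriv G w) + deriv G w := by ring
    rw [h4]
    exact (norm_add_le _ _).trans (by linarith)

end Pool.Agent.H64.BE
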