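import Pool.Agent.H47.RJ.M3M

/-!
# BEAU, no gaps: iterates which omit three values are Lipschitz for the chordal distance, in the right scale

PROOF. As `m3_ch` in H47/RJ/M3M (copy `m3_ce`, `m3_pt`, `m3_eq`, `m3_lip`, which are private there). `lan3` (H84/TE/LAN3) at the centre 0, radius `1 / 2`, constant functions `α i, β i` with `e i = pt (α i) (β i)` (`exists_rep`): constant `C`. For `z ∈ ball x (r / 2)` apply it to `t ↦ R_n (z + r t)`, `t ↦ S_n (z + r t)`, `(R_n, S_n) = perRS a b n` (`perRS_spec`): for `‖t‖ < 1 / 2` `z + r t ∈ ball x r`;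
the derivative at 0 is `r R_n'(z)`: `r ‖R_n' S_n - R_n S_n'‖ ≤ C (‖R_n‖ ^ 2 + ‖S_n‖ ^ 2)` at `z`. `m3_lip` on `ball x (r / 2)` with the constant `C / r`. Replace `C` by `max C 1`.
-/

set_option autoImplicit false

open Filter Topology Polynomial Metric Set

namespace Pool.Agent.H64.BE

open Pool.Agent.H44.Fatou Pool.Agent.H32.BT Pool.Agent.H79.Eul Pool.Agent.H79.Par
open Pool.Agent.H35.EX Pool.Agent.H44.RR Pool.Agent.H56.HR Pool.Agent.H44.RC

private theorem ngp_ce (x y : OnePoint ℂ) : chord x y = Pool.Agent.H91.Fatou.chord x y := by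
  induction x using OnePoint.rec with
  | infty =>
    induction y using OnePoint.rec with
    | infty =>
      show (0 : ℝ) = _
      rw [Pool.Agent.H91.Fatou.chord_self]
    | coe w =>
      change 1 / √(1 + ‖w‖ ^ 2) = ‖(1 : ℂ) * 1 - w * 0‖ / (√(‖(1 : ℂ)‖ ^ 2 + ‖(0 : ℂ)‖ ^ 2) * √(‖w‖ ^ 2 + ‖(1 : ℂ)‖ ^ 2))
      simp [add_comm]
  | coe z =>
    induction y using OnePoint.rec with
    | infty =>
      change 1 / √(1 + ‖z‖ ^ 2) = ‖z * 0 - (1 : ℂ) * 1‖ / (√(‖z‖ ^ 2 + ‖(1 : ℂ)‖ ^ 2) * √(‖(1 : ℂ)‖ ^ 2 + ‖(0 : ℂ)‖ ^ 2))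
      simp [add_comm]
    | coe w =>
      change ‖z - w‖ / (√(1 + ‖z‖ ^ 2) * √(1 + ‖w‖ ^ 2)) =
        ‖z * 1 - w * 1‖ / (√(‖z‖ ^ 2 + ‖(1 : ℂ)‖ ^ 2) * √(‖w‖ ^ 2 + ‖(1 : ℂ)‖ ^ 2))
      simp [add_comm]

private theorem ngp_pt {x y x' y' : ℂ} (h : x ≠ 0 ∨ y ≠ 0) (h' : x' ≠ 0 ∨ y' ≠ 0) :
    chord (pt x y) (pt x' y') = ‖x * y' - x' * y‖ /
      (Pool.Agent.H91.Fatou.nn x y * Pool.Agent.H91.Fatou.nn x' y') := by
  rw [ngp_ce]
  exact Pool.Agent.H91.Fatou.chord_pt h h'

private theorem ngp_eq {x y x' y' : ℂ} (h : x ≠ 0 ∨ y ≠ 0) (h' : x' ≠ 0 ∨ y' ≠ 0)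
    (he : x * y' = x' * y) : pt x y = pt x' y' := by
  apply Pool.Agent.H91.Fatou.chord_eq_zero
  rw [Pool.Agent.H91.Fatou.chord_pt h h', he, sub_self, norm_zero, zero_div]

private theorem ngp_lip {R S : ℂ → ℂ} {x : ℂ} {ρ C : ℝ} (hR : Differentiable ℂ R)
    (hS : Differentiable ℂ S) (hne : ∀ z, R z ≠ 0 ∨ S z ≠ 0)
    (hC : ∀ z ∈ ball x ρ, ‖deriv R z * S z - R z * deriv S z‖ ≤ C * (‖R z‖ ^ 2 + ‖S z‖ ^ 2))
    {z w : ℂ} (hz : z ∈ ball x ρ) (hw : w ∈ ball x ρ) :
    chord (pt (R z) (S z)) (pt (R w) (S w)) ≤ C * ‖w - z‖ := by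
  obtain ⟨u, hu⟩ : ∃ u : ℝ → ℂ, u = fun s : ℝ => z + (s : ℂ) * (w - z) := ⟨_, rfl⟩
  have hu0 : u 0 = z := by rw [hu]; simp
  have hu1 : u 1 = w := by rw [hu]; simp
  have hub : ∀ s ∈ Icc (0 : ℝ) 1, u s ∈ ball x ρ := by
    intro s hs
    have h1 := (convex_ball x ρ) hz hw (by linarith [hs.2] : (0 : ℝ) ≤ 1 - s) hs.1 (by ring)
    have h2 : u s = (1 - s) • z + s • w := by
      rw [hu]
      simp only [Complex.real_smul]
      push_cast
      ring
    rw [h2]
    exact h1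
  have hud : ∀ s : ℝ, HasDerivAt u (w - z) s := by
    intro s
    rw [hu]
    have h1 : HasDerivAt (fun s : ℝ => (s : ℂ)) 1 s := Complex.ofRealCLM.hasDerivAt
    have h2 := (h1.mul_const (w - z)).const_add z
    rwa [one_mul] at h2
  obtain ⟨N, hN⟩ : ∃ N : ℝ → ℝ, N = fun s => Pool.Agent.H91.Fatou.nn (R (u s)) (S (u s)) := ⟨_, rfl⟩
  have hNpos : ∀ s, 0 < N s := fun s => by
    rw [hN]
    exact Pool.Agent.H91.Fatou.nn_pos (hne (u s))
  have huc : Continuous u := continuous_iff_continuousAt.2 fun s => (hud s).continuousAt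
  have hRc : Continuous fun s => R (u s) := hR.continuous.comp huc
  have hSc : Continuous fun s => S (u s) := hS.continuous.comp huc
  have hNc : Continuous N := by
    rw [hN]
    exact Pool.Agent.H91.Fatou.nn_continuous.comp (hRc.prodMk hSc)
  have hN2 : ∀ s, N s * N s = ‖R (u s)‖ ^ 2 + ‖S (u s)‖ ^ 2 := by
    intro s
    rw [hN]
    show √(‖R (u s)‖ ^ 2 + ‖S (u s)‖ ^ 2) * √(‖R (u s)‖ ^ 2 + ‖S (u s)‖ ^ 2) = _
    exact Real.mul_self_sqrt (by positivity)
  have hK : ∀ a b : ℝ, chord (pt (R (u a)) (S (u a))) (pt (R (u b)) (S (u b))) =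
      ‖R (u a) * S (u b) - R (u b) * S (u a)‖ / (N a * N b) := by
    intro a b
    rw [hN]
    exact ngp_pt (hne _) (hne _)
  obtain ⟨θ, hθ⟩ : ∃ θ : ℝ → ℝ, θ = fun s =>
    chord (pt (R (u 0)) (S (u 0))) (pt (R (u s)) (S (u s))) := ⟨_, rfl⟩
  have hθc : Continuous θ := by
    have h1 : θ = fun s => ‖R (u 0) * S (u s) - R (u s) * S (u 0)‖ / (N 0 * N s) := by
      rw [hθ]
      funext s
      exact hK 0 s
    rw [h1]
    refine Continuous.div ?_ (continuous_const.mul hNc) (fun s => (mul_pos (hNpos 0) (hNpos s)).ne')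
    exact ((continuous_const.mul hSc).sub (hRc.mul continuous_const)).norm
  -- the slope
  have hslope : ∀ s ∈ Ico (0 : ℝ) 1, ∀ r, C * ‖w - z‖ < r →
      ∃ᶠ t in 𝓝[>] s, slope θ s t < r := by
    intro s hs r hr
    have hFd : HasDerivAt (fun t => R (u s) * S (u t) - R (u t) * S (u s))
        (R (u s) * ((w - z) * deriv S (u s)) - (w - z) * deriv R (u s) * S (u s)) s := by
      have h1 : HasDerivAt (fun t => S (u t)) ((w - z) * deriv S (u s)) s :=
        (hS (u s)).hasDerivAt.scomp s (hud s)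
      have h2 : HasDerivAt (fun t => R (u t)) ((w - z) * deriv R (u s)) s :=
        (hR (u s)).hasDerivAt.scomp s (hud s)
      exact (h1.const_mul _).sub (h2.mul_const _)
    have h3 := (hasDerivAt_iff_tendsto_slope.1 hFd).mono_left
      (nhdsWithin_mono s (fun t (ht : s < t) => ht.ne') : 𝓝[>] s ≤ 𝓝[≠] s)
    have h4 : Tendsto (fun t => ‖slope (fun t => R (u s) * S (u t) - R (u t) * S (u s)) s t‖ /
        (N s * N t)) (𝓝[>] s)
        (𝓝 (‖R (u s) * ((w - z) * deriv S (u s)) - (w - z) * deriv R (u s) * S (u s)‖ /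
          (N s * N s))) := by
      refine h3.norm.div ?_ (mul_pos (hNpos s) (hNpos s)).ne'
      exact (continuous_const.mul hNc).continuousAt.tendsto.mono_left nhdsWithin_le_nhds
    have h5 : ‖R (u s) * ((w - z) * deriv S (u s)) - (w - z) * deriv R (u s) * S (u s)‖ /
          (N s * N s) < r := by
      refine lt_of_le_of_lt ?_ hr
      rw [div_le_iff₀ (mul_pos (hNpos s) (hNpos s)), hN2]
      have h6 : R (u s) * ((w - z) * deriv S (u s)) - (w - z) * deriv R (u s) * S (u s) =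
          -((w - z) * (deriv R (u s) * S (u s) - R (u s) * deriv S (u s))) := by ring
      rw [h6, norm_neg, norm_mul]
      have h7 := hC (u s) (hub s ⟨hs.1, hs.2.le⟩)
      calc ‖w - z‖ * ‖deriv R (u s) * S (u s) - R (u s) * deriv S (u s)‖
          ≤ ‖w - z‖ * (C * (‖R (u s)‖ ^ 2 + ‖S (u s)‖ ^ 2)) :=
            mul_le_mul_of_nonneg_left h7 (norm_nonneg _)
        _ = _ := by ring
    have h8 := (h4.eventually_lt_const h5).and self_mem_nhdsWithin
    refine (h8.mono fun t ht => ?_).frequently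
    obtain ⟨ht1, ht2⟩ := ht
    have ht3 : 0 < t - s := sub_pos.2 ht2
    refine lt_of_le_of_lt ?_ ht1
    have h9 : ‖slope (fun t => R (u s) * S (u t) - R (u t) * S (u s)) s t‖ =
        ‖R (u s) * S (u t) - R (u t) * S (u s)‖ / (t - s) := by
      rw [slope_def_module, sub_self, sub_zero, norm_smul, norm_inv, Real.norm_eq_abs,
        abs_of_pos ht3, inv_mul_eq_div]
    have h10 : θ t - θ s ≤ ‖R (u s) * S (u t) - R (u t) * S (u s)‖ / (N s * N t) := by
      rw [← hK s t, hθ]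
      have := Pool.Agent.H47.RJ.ch_tri (pt (R (u 0)) (S (u 0))) (pt (R (u s)) (S (u s))) (pt (R (u t)) (S (u t)))
      show chord (pt (R (u 0)) (S (u 0))) (pt (R (u t)) (S (u t))) -
        chord (pt (R (u 0)) (S (u 0))) (pt (R (u s)) (S (u s))) ≤ _
      linarith
    rw [slope_def_field, h9, div_right_comm]
    exact div_le_div_of_nonneg_right h10 ht3.le
  have hfin : ∀ ε : ℝ, 0 < ε → θ 1 ≤ C * ‖w - z‖ + ε := by
    intro ε hε
    have h1 := image_le_of_liminf_slope_right_lt_deriv_boundary (f := θ)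
      (f' := fun _ => C * ‖w - z‖) (a := 0) (b := 1) hθc.continuousOn hslope
      (B := fun s => (C * ‖w - z‖ + ε) * s) (B' := fun _ => C * ‖w - z‖ + ε) ?_ ?_ ?_
      (show (1 : ℝ) ∈ Icc (0 : ℝ) 1 from ⟨zero_le_one, le_rfl⟩)
    · simpa using h1
    · rw [hθ]
      show chord (pt (R (u 0)) (S (u 0))) (pt (R (u 0)) (S (u 0))) ≤ _
      rw [chord_zero, mul_zero]
    · intro s
      have := (hasDerivAt_id s).const_mul (C * ‖w - z‖ + ε)
      rwa [mul_one] at this
    · intro s _ _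
      show C * ‖w - z‖ < C * ‖w - z‖ + ε
      linarith
  have h1 : θ 1 ≤ C * ‖w - z‖ := le_of_forall_pos_le_add hfin
  rw [hθ] at h1
  have h2 : chord (pt (R (u 0)) (S (u 0))) (pt (R (u 1)) (S (u 1))) ≤ C * ‖w - z‖ := h1
  rwa [hu0, hu1] at h2

theorem sph_lip {a b : Polynomial ℂ} (hcop : IsCoprime a b) {e : Fin 3 → OnePoint ℂ} (he : Function.Injective e) :
    ∃ C : ℝ, 0 < C ∧ ∀ (x : ℂ) (r : ℝ) (n : ℕ), 0 < r →
      (∀ z ∈ ball x r, ∀ i, (rat a b)^[n] (z : OnePoint ℂ) ≠ e i) →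
      ∀ z ∈ ball x (r / 2), ∀ w ∈ ball x (r / 2),
        chord ((rat a b)^[n] (z : OnePoint ℂ)) ((rat a b)^[n] (w : OnePoint ℂ)) ≤ C / r * ‖z - w‖ := by
  choose p hps hpe using fun i => Pool.Agent.H91.Fatou.exists_rep (e i)
  have hpne : ∀ i, (p i).1 ≠ 0 ∨ (p i).2 ≠ 0 := fun i => Pool.Agent.H91.Fatou.ne_of_sphere (hps i)
  have hD : ∀ i j, i ≠ j → (p i).1 * (p j).2 - (p j).1 * (p i).2 ≠ 0 := by
    intro i j hij h0
    apply hij
    apply he
    rw [← hpe i, ← hpe j]
    exact ngp_eq (hpne i) (hpne j) (sub_eq_zero.1 h0)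
  obtain ⟨C, hC⟩ := Pool.Agent.H84.TE.lan3 (x := (0 : ℂ)) (r := 1 / 2) (by norm_num) (α := fun i _ => (p i).1)
    (β := fun i _ => (p i).2) (fun i => differentiableOn_const _) (fun i => differentiableOn_const _)
    (fun i j hij z _ => hD i j hij)
  refine ⟨max C 1, lt_of_lt_of_le one_pos (le_max_right _ _), ?_⟩
  intro x r n hr h
  have hit : ∀ z : ℂ, (rat a b)^[n] (z : OnePoint ℂ) =
      pt ((perRS a b n).1.eval z) ((perRS a b n).2.eval z) :=
    fun z => (perRS_spec hcop z n).2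
  have hb : ∀ z ∈ ball x (r / 2),
      ‖deriv (fun z => (perRS a b n).1.eval z) z * (perRS a b n).2.eval z - (perRS a b n).1.eval z *
        deriv (fun z => (perRS a b n).2.eval z) z‖ ≤
      C / r * (‖(perRS a b n).1.eval z‖ ^ 2 + ‖(perRS a b n).2.eval z‖ ^ 2) := by
    intro z hz
    have hlin : Differentiable ℂ (fun t : ℂ => z + (r : ℂ) * t) :=
      (differentiable_id.const_mul (r : ℂ)).const_add z
    have h1 := hC (fun t => (perRS a b n).1.eval (z + (r : ℂ) * t))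
      (fun t => (perRS a b n).2.eval (z + (r : ℂ) * t))
      ((Polynomial.differentiable (perRS a b n).1).comp hlin).differentiableOn
      ((Polynomial.differentiable (perRS a b n).2).comp hlin).differentiableOn
      (by
        intro i t ht h0
        have hzt : z + (r : ℂ) * t ∈ ball x r := by
          rw [mem_ball, dist_eq_norm] at ht hz ⊢
          rw [sub_zero] at ht
          have h2 : z + (r : ℂ) * t - x = (z - x) + (r : ℂ) * t := by ring
          rw [h2]
          refine (norm_add_le _ _).trans_lt ?_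
          rw [norm_mul, Complex.norm_real, Real.norm_of_nonneg hr.le]
          nlinarith
        apply h (z + (r : ℂ) * t) hzt i
        rw [hit, ← hpe i]
        refine ngp_eq (perRS_spec hcop (z + (r : ℂ) * t) n).1 (hpne i) ?_
        linear_combination h0)
    have hdc : ∀ A : Polynomial ℂ, deriv (fun t => A.eval (z + (r : ℂ) * t)) 0 =
        (r : ℂ) * deriv (fun z => A.eval z) z := by
      intro A
      have h3 : HasDerivAt (fun t : ℂ => z + (r : ℂ) * t) (r : ℂ) 0 := by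
        have h4 := ((hasDerivAt_id (0 : ℂ)).const_mul (r : ℂ)).const_add z
        rwa [mul_one] at h4
      have h5 : HasDerivAt (fun z => A.eval z) (deriv (fun z => A.eval z) z) (z + (r : ℂ) * 0) := by
        rw [mul_zero, add_zero]
        exact (Polynomial.differentiable A z).hasDerivAt
      have h6 := (h5.comp (0 : ℂ) h3).deriv
      rw [mul_comm]
      exact h6
    rw [hdc, hdc] at h1
    simp only [mul_zero, add_zero] at h1
    have h7 : (r : ℂ) * deriv (fun z => (perRS a b n).1.eval z) z * (perRS a b n).2.eval z -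
        (perRS a b n).1.eval z * ((r : ℂ) * deriv (fun z => (perRS a b n).2.eval z) z) =
        (r : ℂ) * (deriv (fun z => (perRS a b n).1.eval z) z * (perRS a b n).2.eval z -
          (perRS a b n).1.eval z * deriv (fun z => (perRS a b n).2.eval z) z) := by ring
    rw [h7, norm_mul, Complex.norm_real, Real.norm_of_nonneg hr.le] at h1
    rw [div_mul_eq_mul_div, le_div_iff₀ hr, mul_comm]
    exact h1
  intro z hz w hw
  rw [hit, hit]
  have h3 := ngp_lip (R := fun z => (perRS a b n).1.eval z)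
    (S := fun z => (perRS a b n).2.eval z) (Polynomial.differentiable _)
    (Polynomial.differentiable _) (fun z => (perRS_spec hcop z n).1) hb hz hw
  refine h3.trans ?_
  rw [norm_sub_rev w z]
  exact mul_le_mul_of_nonneg_right (div_le_div_of_nonneg_right (le_max_left _ _) hr.le) (norm_nonneg _)

end Pool.Agent.H64.BE
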