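import Pool.Agent.H64.BE.NGL
import Pool.Agent.H64.BE.NGP
import Pool.Agent.H64.BE.NGE
import Pool.Agent.H44.DN.NNL

/-!
# BEAU, no gaps: no rings in the Fatou set at a persistently recurrent critical point

`fin_back`: a point of the plane whose image under `rat^[n]` is within `δ0` of `J` has its orbit in the plane. PROOF: `bdo` (H3/NC/BRN).
`not_hit`: `J` is backward invariant. PROOF: `fin_back` with `w = y` gives `z ∈ pre^[n] {y}`; `US0.back` `n` times (induction on `n`, `Function.iterate_succ_apply`; use `mem_pre`).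
`three`: PROOF: `c` is not isolated in `J`: `h.per c _ ρ`: periodic points `x ∈ J` with `‖x - c‖ < ρ`; `x ≠ c`, because `tD a b p c = 0` (first factor `dg c = 0`), against `h.ns.rep`. So there are three different points of `J`.
`ring_false`. PROOF. `δ = δ0 / 4`; `δ'` from `exit` (for `δ`). `e i` three points of `J`, `C` from `sph_lip`; `η` from `chord_cl` (`R = R0`, `ε = δ`); `τ = min (1 / 16) (η / (8 C))`. For every `n` (`N = n`): `s0` from `exit` at `c`, `r ≤ 2 s0`, `r ≤ 1 / (n + 1)` from `hring`, `s = r / 2`: `k ≥ n`, `z ∈ ball c (r / 2)`. `choose` sequences `r n, k n, z n`.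
CLAIM: `‖z - c‖ < (1 + τ) r / 2` implies `z ∈ pre^[k] (ball (gg^[k] c) (2 δ))`. If `‖z - c‖ < r / 2`: clear. Otherwise `x = c + (r / 2) (z - c) / ‖z - c‖`, `z' = c + (1 - τ) (x - c)`: `‖z - x‖ < τ r`, `‖z' - x‖ = τ r / 2`, both in `ball x (r / 8)`; `ball x (r / 4)` is in the ring `r / 4 < ‖. - c‖ < r`, so in the complement of `J`, so `rat^[k]` omits the `e i` there (`not_hit`).
`sph_lip` (radius `r / 4`): `chord (rat^[k] z) (rat^[k] z') ≤ (4 C / r) (3 / 2) τ r < η` (adjust the constant of `τ`); `z' ∈ ball c (r / 2)`: `rat^[k] z' = gg^[k] z'` (`rat_gg`), `‖gg^[k] z' - gg^[k] c‖ < δ`, `‖gg^[k] z'‖ ≤ R0` (`h.ns.bd` with `n = 0`, `δ < δ0`). `chord_cl`: `rat^[k] z` is a finite point `w` with `‖w - gg^[k] z'‖ < δ`. So `w ∈ ball (gg^[k] c) (2 δ)`, `2 δ < δ0`: `fin_back`.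
`ρ = (1 + τ) / 2`, `g n u = gg^[k n] (c + r n u)`: in `closedBall 0 R0` on `ball 0 ρ`, differentiable (`g_diff`). `montel1` (H44/DN/NNL) on `ball 0 ρ`, smaller radius `ρ'' = (1 + τ / 2) / 2`: `σ`, `G`. `u n = (z n - c) / r n ∈ ball 0 (1/2)`; a subsequence of `u (σ n)` converges to `u*`, `‖u*‖ ≤ 1 / 2 < ρ''`; by the continuous convergence `gg^[k] (z n) → G u*` along it, `gg^[k] c → G 0`, so `‖G u* - G 0‖ ≥ δ'`. `no_lim` for the subsequence (`k ∘ σ → ∞`, radius `ρ''`).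
-/

set_option autoImplicit false

open Filter Topology Polynomial Metric Set

namespace Pool.Agent.H64.BE

open Pool.Agent.H44.Fatou (rat rat_continuous rat_coe rat_coe_of_ne pt crit_coe)
open Pool.Agent.H61.TT Pool.Agent.H57.CP Pool.Agent.H3.NC Pool.Agent.H18.UP
open Pool.Agent.H35.EX (chord)

variable {d D : ℕ} {a b : Polynomial ℂ} {J : Set ℂ} {δ0 R0 : ℝ}

theorem fin_back (h : US0 d D a b J δ0 R0) {n : ℕ} {z y w : ℂ} (hy : y ∈ J) (hw : w ∈ ball y δ0)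
    (hz : (rat a b)^[n] (z : OnePoint ℂ) = (w : OnePoint ℂ)) : z ∈ (pre a b)^[n] {w} := by
  obtain ⟨h1, -, h2⟩ := bdo h.ns hy hw hz
  exact mem_pre.2 ⟨h2, h1⟩

private theorem back_it (h : US0 d D a b J δ0 R0) (n : ℕ) {z y : ℂ} (hy : y ∈ J)
    (hz : z ∈ (pre a b)^[n] {y}) : z ∈ J := by
  induction n generalizing z with
  | zero =>
    have h1 : z = y := hz
    rw [h1]
    exact hy
  | succ n ih =>
    rw [Function.iterate_succ_apply'] at hz
    exact h.back z hz.1 (ih hz.2)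

theorem not_hit (h : US0 d D a b J δ0 R0) {z : ℂ} (hz : z ∉ J) (n : ℕ) {y : ℂ} (hy : y ∈ J) :
    (rat a b)^[n] (z : OnePoint ℂ) ≠ (y : OnePoint ℂ) := by
  intro h1
  exact hz (back_it h n hy (fin_back h hy (mem_ball_self h.ns.hδ0) h1))

theorem three (h : US0 d D a b J δ0 R0) {c : ℂ} (hc : c ∈ J) (hcr : (ww a b).eval c = 0) :
    ∃ e : Fin 3 → ℂ, Function.Injective e ∧ ∀ i, e i ∈ J := by
  have key : ∀ ρ : ℝ, 0 < ρ → ∃ x ∈ J, ‖x - c‖ < ρ ∧ x ≠ c := by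
    intro ρ hρ
    obtain ⟨x, hx, hxc, p, hp, hpx⟩ := h.per c hc ρ hρ
    refine ⟨x, hx, hxc, ?_⟩
    rintro rfl
    have h1 := h.ns.rep x hx p hp hpx
    have h2 : tD a b p x = 0 := by
      unfold tD
      refine Finset.prod_eq_zero (Finset.mem_range.2 hp) ?_
      show Pool.Agent.H61.TT.dg a b x = 0
      unfold Pool.Agent.H61.TT.dg
      rw [hcr, zero_div]
    rw [h2, norm_zero] at h1
    linarith
  obtain ⟨x1, hx1, -, hx1c⟩ := key 1 one_pos
  have hpos : 0 < ‖x1 - c‖ := norm_pos_iff.2 (sub_ne_zero.2 hx1c)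
  obtain ⟨x2, hx2, hx2l, hx2c⟩ := key _ hpos
  have h12 : x1 ≠ x2 := by
    rintro rfl
    exact lt_irrefl _ hx2l
  refine ⟨![c, x1, x2], ?_, ?_⟩
  · intro i j hij
    fin_cases i <;> fin_cases j <;> simp_all
  · intro i
    fin_cases i
    · exact hc
    · exact hx1
    · exact hx2

private theorem nrm (h : US0 d D a b J δ0 R0) {y w : ℂ} (hy : y ∈ J) (hw : w ∈ ball y δ0) :
    ‖w‖ ≤ R0 := by
  obtain ⟨z, hz, hz'⟩ := h.ns.bd 0 (w : OnePoint ℂ) ⟨y, hy, w, hw, rfl⟩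
  rw [OnePoint.coe_injective hz]
  exact hz'

private theorem claim (h : US0 d D a b J δ0 R0) {c : ℂ} (hc : c ∈ J) {e : Fin 3 → ℂ}
    (he : ∀ i, e i ∈ J) {C η τ δ r : ℝ} (hC : 0 < C) (hη : 0 < η) (hδ0 : 2 * δ < δ0)
    (hδ : 0 < δ) (hτ : 0 < τ) (hτ1 : τ ≤ 1 / 16) (hτ2 : 8 * C * τ ≤ η) (hr : 0 < r)
    (hlip : ∀ (x : ℂ) (r : ℝ) (n : ℕ), 0 < r →
      (∀ z ∈ ball x r, ∀ i, (rat a b)^[n] (z : OnePoint ℂ) ≠ (e i : OnePoint ℂ)) →
      ∀ z ∈ ball x (r / 2), ∀ w ∈ ball x (r / 2),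
        chord ((rat a b)^[n] (z : OnePoint ℂ)) ((rat a b)^[n] (w : OnePoint ℂ)) ≤ C / r * ‖z - w‖)
    (hcl : ∀ (z : OnePoint ℂ) (w : ℂ), ‖w‖ ≤ R0 → chord z (w : OnePoint ℂ) < η →
      ∃ z' : ℂ, z = (z' : OnePoint ℂ) ∧ ‖z' - w‖ < δ)
    (hring : ∀ z ∈ J, ¬ (r / 4 < ‖z - c‖ ∧ ‖z - c‖ < r)) {k : ℕ}
    (hk : ball c (r / 2) ⊆ (pre a b)^[k] (ball ((gg a b)^[k] c) δ)) {z : ℂ}
    (hz : ‖z - c‖ < (1 + τ) * r / 2) : z ∈ (pre a b)^[k] (closedBall 0 R0) := by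
  have hkc : (gg a b)^[k] c ∈ J := itJ h.ns hc k
  have hin : ∀ z', ‖z' - c‖ < r / 2 → z' ∈ (pre a b)^[k] (closedBall 0 R0) ∧
      ‖(gg a b)^[k] z' - (gg a b)^[k] c‖ < δ := by
    intro z' hz'
    have h1 := hk (mem_ball_iff_norm.2 hz')
    obtain ⟨h2, h3⟩ := mem_pre.1 h1
    rw [mem_ball_iff_norm] at h3
    refine ⟨mem_pre.2 ⟨h2, ?_⟩, h3⟩
    rw [mem_closedBall_zero_iff]
    exact nrm h hkc (mem_ball_iff_norm.2 (by linarith))
  rcases lt_or_ge ‖z - c‖ (r / 2) with hz1 | hz1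
  · exact (hin z hz1).1
  have hzc : 0 < ‖z - c‖ := by linarith
  set t : ℝ := r / 2 / ‖z - c‖ with ht
  have ht0 : 0 < t := by positivity
  have ht1 : t ≤ 1 := by
    rw [ht, div_le_one hzc]
    exact hz1
  have htn : t * ‖z - c‖ = r / 2 := by
    rw [ht]
    field_simp
  set x : ℂ := c + (t : ℂ) * (z - c) with hx
  have hxc : ‖x - c‖ = r / 2 := by
    rw [hx, add_sub_cancel_left, norm_mul, Complex.norm_real, Real.norm_eq_abs, abs_of_pos ht0, htn]
  have hzx : ‖z - x‖ < τ * r / 2 := by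
    have h1 : z - x = ((1 - t : ℝ) : ℂ) * (z - c) := by
      rw [hx]
      push_cast
      ring
    rw [h1, norm_mul, Complex.norm_real, Real.norm_eq_abs, abs_of_nonneg (by linarith), sub_mul,
      htn, one_mul]
    linarith
  set z' : ℂ := c + ((1 - τ : ℝ) : ℂ) * (x - c) with hz'
  have hz'x : ‖z' - x‖ = τ * r / 2 := by
    have h1 : z' - x = -((τ : ℝ) : ℂ) * (x - c) := by
      rw [hz']
      push_cast
      ring
    rw [h1, norm_mul, norm_neg, Complex.norm_real, Real.norm_eq_abs, abs_of_pos hτ, hxc]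
    ring
  have hz'c : ‖z' - c‖ < r / 2 := by
    rw [hz', add_sub_cancel_left, norm_mul, Complex.norm_real, Real.norm_eq_abs,
      abs_of_pos (by linarith), hxc]
    nlinarith
  have hτr : τ * r ≤ 1 / 16 * r := mul_le_mul_of_nonneg_right hτ1 hr.le
  have hom : ∀ w ∈ ball x (r / 4), ∀ i, (rat a b)^[k] (w : OnePoint ℂ) ≠ (e i : OnePoint ℂ) := by
    intro w hw i
    refine not_hit h ?_ k (he i)
    intro hwJ
    rw [mem_ball_iff_norm] at hw
    refine hring w hwJ ⟨?_, ?_⟩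
    · have h1 : ‖x - c‖ ≤ ‖x - w‖ + ‖w - c‖ := by
        have h2 := norm_add_le (x - w) (w - c)
        rwa [sub_add_sub_cancel] at h2
      rw [norm_sub_rev x w] at h1
      linarith
    · have h1 : ‖w - c‖ ≤ ‖w - x‖ + ‖x - c‖ := by
        have h2 := norm_add_le (w - x) (x - c)
        rwa [sub_add_sub_cancel] at h2
      linarith
  have hl := hlip x (r / 4) k (by positivity) hom z (mem_ball_iff_norm.2 (by linarith)) z'
    (mem_ball_iff_norm.2 (by linarith))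
  have hzz : ‖z - z'‖ ≤ τ * r := by
    have h1 : ‖z - z'‖ ≤ ‖z - x‖ + ‖x - z'‖ := by
      have h2 := norm_add_le (z - x) (x - z')
      rwa [sub_add_sub_cancel] at h2
    rw [norm_sub_rev x z'] at h1
    linarith
  have hl2 : chord ((rat a b)^[k] (z : OnePoint ℂ)) ((rat a b)^[k] (z' : OnePoint ℂ)) < η := by
    have h1 : C / (r / 4) * ‖z - z'‖ ≤ C / (r / 4) * (τ * r) :=
      mul_le_mul_of_nonneg_left hzz (by positivity)
    have h2 : C / (r / 4) * (τ * r) = 4 * C * τ := by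
      field_simp
    nlinarith
  obtain ⟨hz'1, hz'2⟩ := hin z' hz'c
  have hrg : (rat a b)^[k] (z' : OnePoint ℂ) = (((gg a b)^[k] z' : ℂ) : OnePoint ℂ) :=
    rat_gg hz'1 le_rfl
  rw [hrg] at hl2
  have hzR : ‖(gg a b)^[k] z'‖ ≤ R0 := mem_closedBall_zero_iff.1 (mem_pre.1 hz'1).2
  obtain ⟨w, hw1, hw2⟩ := hcl _ _ hzR hl2
  have hw3 : ‖w - (gg a b)^[k] c‖ < δ0 := by
    have h2 := norm_add_le (w - (gg a b)^[k] z') ((gg a b)^[k] z' - (gg a b)^[k] c)
    rw [sub_add_sub_cancel] at h2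
    linarith
  have hw4 : w ∈ ball ((gg a b)^[k] c) δ0 := mem_ball_iff_norm.2 hw3
  refine pre_mono ?_ (fin_back h hkc hw4 hw1)
  rw [singleton_subset_iff, mem_closedBall_zero_iff]
  exact nrm h hkc hw4

theorem ring_false (h : US0 d D a b J δ0 R0) {c : ℂ} (hc : c ∈ J) (hcr : (ww a b).eval c = 0)
    (hPR : PR (rat a b) (c : OnePoint ℂ))
    (hring : ∀ r1 : ℝ, 0 < r1 → ∃ r : ℝ, 0 < r ∧ r ≤ r1 ∧ ∀ z ∈ J, ¬ (r / 4 < ‖z - c‖ ∧ ‖z - c‖ < r)) : False := by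
  have hδ0 := h.ns.hδ0
  obtain ⟨δ', hδ', hexit⟩ := exit h (δ := δ0 / 4) (by linarith) (by linarith)
  obtain ⟨e, he1, he2⟩ := three h hc hcr
  obtain ⟨C, hC, hlip⟩ := sph_lip h.ns.rt.cop (e := fun i => (e i : OnePoint ℂ))
    (fun i j hij => he1 (OnePoint.coe_injective hij))
  obtain ⟨η, hη, hcl⟩ := chord_cl (R := R0) (ε := δ0 / 4) (by linarith)
  set τ : ℝ := min (1 / 16) (η / (8 * C)) with hτ
  have hτ0 : 0 < τ := lt_min (by norm_num) (by positivity)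
  have hτ1 : τ ≤ 1 / 16 := min_le_left _ _
  have hτ2 : 8 * C * τ ≤ η := by
    have h1 : τ ≤ η / (8 * C) := min_le_right _ _
    rw [le_div_iff₀ (by positivity)] at h1
    linarith
  have key : ∀ n : ℕ, ∃ (r : ℝ) (k : ℕ) (z : ℂ), 0 < r ∧ n ≤ k ∧
      (∀ z ∈ J, ¬ (r / 4 < ‖z - c‖ ∧ ‖z - c‖ < r)) ∧
      ball c (r / 2) ⊆ (pre a b)^[k] (ball ((gg a b)^[k] c) (δ0 / 4)) ∧ z ∈ ball c (r / 2) ∧
      δ' ≤ ‖(gg a b)^[k] z - (gg a b)^[k] c‖ := by
    intro n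
    obtain ⟨s0, hs0, hs⟩ := hexit c hc n
    obtain ⟨r, hr, hr1, hr2⟩ := hring (2 * s0) (by linarith)
    obtain ⟨k, hk, hk1, z, hz, hz1⟩ := hs (r / 2) (by linarith) (by linarith)
    exact ⟨r, k, z, hr, hk, hr2, hk1, hz, hz1⟩
  choose r k z hr hnk hrg hsub hz hzδ using key
  have hpre : ∀ n, ∀ u ∈ ball (0 : ℂ) ((1 + τ) / 2),
      c + r n * u ∈ (pre a b)^[k n] (closedBall 0 R0) := by
    intro n u hu
    rw [mem_ball_zero_iff] at hu
    refine claim h hc he2 hC hη (by linarith) (by linarith) hτ0 hτ1 hτ2 (hr n) hlip hcl (hrg n)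
      (hsub n) ?_
    rw [add_sub_cancel_left, norm_mul, Complex.norm_real, Real.norm_eq_abs, abs_of_pos (hr n)]
    have := hr n
    nlinarith
  set F : ℕ → ℂ → ℂ := fun n u => (gg a b)^[k n] (c + r n * u) with hF
  have hFd : ∀ n, DifferentiableOn ℂ (F n) (ball 0 ((1 + τ) / 2)) := by
    intro n u hu
    have h1 := (g_diff (hpre n u hu)).differentiableAt
    have h2 : DifferentiableAt ℂ (fun u : ℂ => c + r n * u) u := by fun_prop
    exact (DifferentiableAt.comp (g := (gg a b)^[k n]) (f := fun u : ℂ => c + r n * u) u h1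
      h2).differentiableWithinAt
  have hFB : ∀ n, ∀ u ∈ ball (0 : ℂ) ((1 + τ) / 2), ‖F n u‖ ≤ R0 := fun n u hu =>
    mem_closedBall_zero_iff.1 (mem_pre.1 (hpre n u hu)).2
  obtain ⟨σ, G, hσ, -, hG⟩ := Pool.Agent.H44.DN.montel1 (F := F) (x := 0) (ρ := (1 + τ) / 2)
    (ρ' := (1 + τ / 2) / 2) (B := R0) (by linarith) (by linarith) hFd hFB
  set u : ℕ → ℂ := fun n => (z n - c) / r n with hu
  have hu1 : ∀ n, u n ∈ closedBall (0 : ℂ) (1 / 2) := by
    intro n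
    have h1 := hr n
    have h2 := mem_ball_iff_norm.1 (hz n)
    rw [mem_closedBall_zero_iff, hu]
    simp only [norm_div, Complex.norm_real, Real.norm_eq_abs, abs_of_pos h1]
    rw [div_le_iff₀ h1]
    linarith
  have hFz : ∀ n, F n (u n) = (gg a b)^[k n] (z n) := by
    intro n
    have h1 : (r n : ℂ) ≠ 0 := Complex.ofReal_ne_zero.2 (hr n).ne'
    have h2 : c + r n * u n = z n := by
      rw [hu]
      field_simp
      ring
    show (gg a b)^[k n] (c + r n * u n) = _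
    rw [h2]
  have hF0 : ∀ n, F n 0 = (gg a b)^[k n] c := by
    intro n
    show (gg a b)^[k n] (c + r n * 0) = _
    rw [mul_zero, add_zero]
  obtain ⟨x, hx, φ, hφ, hφx⟩ := (isCompact_closedBall (0 : ℂ) (1 / 2)).tendsto_subseq
    (x := fun n => u (σ n)) (fun n => hu1 (σ n))
  have hxb : x ∈ ball (0 : ℂ) ((1 + τ / 2) / 2) := by
    rw [mem_closedBall_zero_iff] at hx
    rw [mem_ball_zero_iff]
    linarith
  have h0b : (0 : ℂ) ∈ ball (0 : ℂ) ((1 + τ / 2) / 2) := mem_ball_self (by linarith)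
  have hlim1 : Tendsto (fun m => F (σ (φ m)) (u (σ (φ m)))) atTop (𝓝 (G x)) := by
    have h1 : Tendsto (fun m => (φ m, u (σ (φ m)))) atTop (atTop ×ˢ 𝓝 x) :=
      hφ.tendsto_atTop.prodMk hφx
    exact (hG x hxb).comp h1
  have hlim0 : Tendsto (fun m => F (σ (φ m)) 0) atTop (𝓝 (G 0)) := by
    have h1 : Tendsto (fun m => (φ m, (0 : ℂ))) atTop (atTop ×ˢ 𝓝 0) :=
      hφ.tendsto_atTop.prodMk tendsto_const_nhds
    exact (hG 0 h0b).comp h1
  have hdist : δ' ≤ ‖G x - G 0‖ := by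
    refine ge_of_tendsto' ((hlim1.sub hlim0).norm) fun m => ?_
    rw [hFz, hF0]
    exact hzδ _
  have hne : G x ≠ G 0 := by
    intro h1
    rw [h1, sub_self, norm_zero] at hdist
    linarith
  have hkσ : Tendsto (fun n => k (σ n)) atTop atTop :=
    tendsto_atTop_mono (fun n => (hσ.id_le n).trans (hnk (σ n))) tendsto_id
  exact no_lim h.ns.rt hPR hkσ (r := fun n => r (σ n)) (fun n => hr (σ n))
    (ρ := (1 + τ / 2) / 2) (R := R0) (by linarith)
    (fun n u hu => hpre (σ n) u (ball_subset_ball (by linarith) hu)) (G := G)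
    (fun w hw => hG w hw) ⟨x, hxb, hne⟩

end Pool.Agent.H64.BE
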