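import Mathlib

/-!
# BEAU, no gaps: a holomorphic function with many small zeros is small near 0

PROOF. `h w = Q w * ∏_(i ∈ S) dslope (F i) (u i) w` is differentiable on `ball 0 ρ` (`Complex.differentiableOn_dslope`), `F i w = (w - u i) * dslope (F i) (u i) w` (`sub_smul_dslope` and `F i (u i) = 0`), so `Q w * ∏ F i w = (∏ (w - u i)) * h w`.
For `‖w‖ = ρ'`: `‖w - u i‖ ≥ ρ' - ρ1 > 0`, so `‖h w‖ ≤ B / (ρ' - ρ1) ^ #S`. Maximum principle (`Complex.norm_le_of_forall_mem_frontier_norm_le` on `ball 0 ρ'`): the same for `‖w‖ ≤ ρ'`. For `‖w‖ ≤ ρ1`: `‖w - u i‖ ≤ 2 ρ1 ≤ (ρ' - ρ1) / 2`. (`0 ≤ B`: the sphere is not empty.)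
-/

set_option autoImplicit false

open Filter Topology Metric Set

namespace Pool.Agent.H64.BE

theorem many_zeros {ι : Type*} (S : Finset ι) {F : ι → ℂ → ℂ} {Q : ℂ → ℂ} {u : ι → ℂ} {ρ ρ' ρ1 B : ℝ}
    (hρ1 : 0 < ρ1) (h5 : 5 * ρ1 ≤ ρ') (hρ : ρ' < ρ) (hF : ∀ i ∈ S, DifferentiableOn ℂ (F i) (ball 0 ρ))
    (hQ : DifferentiableOn ℂ Q (ball 0 ρ)) (hu : ∀ i ∈ S, ‖u i‖ ≤ ρ1) (hz : ∀ i ∈ S, F i (u i) = 0)
    (hB : ∀ w, ‖w‖ = ρ' → ‖Q w * ∏ i ∈ S, F i w‖ ≤ B) {w : ℂ} (hw : ‖w‖ ≤ ρ1) :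
    ‖Q w * ∏ i ∈ S, F i w‖ ≤ B / 2 ^ S.card := by
  have hρ' : 0 < ρ' := by linarith
  have hd : 0 < ρ' - ρ1 := by linarith
  obtain ⟨h, hh⟩ : ∃ h : ℂ → ℂ, h = fun z => Q z * ∏ i ∈ S, dslope (F i) (u i) z := ⟨_, rfl⟩
  have key : ∀ z, Q z * ∏ i ∈ S, F i z = (∏ i ∈ S, (z - u i)) * h z := by
    intro z
    have h1 : ∏ i ∈ S, F i z = (∏ i ∈ S, (z - u i)) * ∏ i ∈ S, dslope (F i) (u i) z := by
      rw [← Finset.prod_mul_distrib]
      refine Finset.prod_congr rfl fun i hi => ?_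
      have h2 := sub_smul_dslope (F i) (u i) z
      rw [hz i hi, sub_zero, smul_eq_mul] at h2
      exact h2.symm
    rw [h1, hh]
    ring
  have hcb : closedBall (0 : ℂ) ρ' ⊆ ball 0 ρ := closedBall_subset_ball hρ
  have hdiff : DifferentiableOn ℂ h (ball 0 ρ) := by
    rw [hh]
    refine hQ.mul (DifferentiableOn.fun_finsetProd fun i hi => ?_)
    have hui : u i ∈ ball (0 : ℂ) ρ := by
      rw [mem_ball, dist_zero_right]
      have := hu i hi
      linarith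
    exact (Complex.differentiableOn_dslope (isOpen_ball.mem_nhds hui)).2 (hF i hi)
  have hB0 : 0 ≤ B := by
    have h1 : ‖((ρ' : ℝ) : ℂ)‖ = ρ' := by
      rw [Complex.norm_real, Real.norm_eq_abs, abs_of_pos hρ']
    exact (norm_nonneg _).trans (hB _ h1)
  have hsph : ∀ z, ‖z‖ = ρ' → ‖h z‖ ≤ B / (ρ' - ρ1) ^ S.card := by
    intro z hz1
    rw [le_div_iff₀ (pow_pos hd _)]
    have h1 := hB z hz1
    rw [key, norm_mul, norm_prod] at h1
    have h2 : (ρ' - ρ1) ^ S.card ≤ ∏ i ∈ S, ‖z - u i‖ := by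
      rw [← Finset.prod_const]
      refine Finset.prod_le_prod (fun i _ => hd.le) fun i hi => ?_
      have h3 := norm_sub_norm_le z (u i)
      have h4 := hu i hi
      linarith
    calc ‖h z‖ * (ρ' - ρ1) ^ S.card ≤ ‖h z‖ * ∏ i ∈ S, ‖z - u i‖ :=
          mul_le_mul_of_nonneg_left h2 (norm_nonneg _)
      _ = (∏ i ∈ S, ‖z - u i‖) * ‖h z‖ := mul_comm _ _
      _ ≤ B := h1
  have hin : ‖h w‖ ≤ B / (ρ' - ρ1) ^ S.card := by
    refine Complex.norm_le_of_forall_mem_frontier_norm_le (U := ball (0 : ℂ) ρ') isBounded_ball ?_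
      ?_ ?_
    · refine DifferentiableOn.diffContOnCl ?_
      rw [closure_ball _ hρ'.ne']
      exact hdiff.mono hcb
    · intro z hz1
      rw [frontier_ball _ hρ'.ne', mem_sphere, dist_zero_right] at hz1
      exact hsph z hz1
    · rw [closure_ball _ hρ'.ne', mem_closedBall, dist_zero_right]
      linarith
  have hup : ∏ i ∈ S, ‖w - u i‖ ≤ (2 * ρ1) ^ S.card := by
    rw [← Finset.prod_const]
    refine Finset.prod_le_prod (fun i _ => norm_nonneg _) fun i hi => ?_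
    have h3 := norm_sub_le w (u i)
    have h4 := hu i hi
    linarith
  rw [key, norm_mul, norm_prod]
  have h5' : (2 * ρ1) ^ S.card ≤ ((ρ' - ρ1) / 2) ^ S.card :=
    pow_le_pow_left₀ (by linarith) (by linarith) _
  calc (∏ i ∈ S, ‖w - u i‖) * ‖h w‖ ≤ ((ρ' - ρ1) / 2) ^ S.card * (B / (ρ' - ρ1) ^ S.card) :=
        mul_le_mul (hup.trans h5') hin (norm_nonneg _) (by positivity)
    _ = B / 2 ^ S.card := by
        rw [div_pow]
        have := (pow_pos hd S.card).ne'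
        field_simp

end Pool.Agent.H64.BE
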